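import Pool.Agent.EDW.Defs

/-!
# From good families to disks

Paper proof. Given a good family `X, Y : Fin N → ℝ` put `c i = (X i / 4, Y i / 4)` for `i < n`
(embed `Fin n` into `Fin N` by `Fin.castLE`), radius `ρ = w / 40`.

* `|X|, |Y| ≤ 2` gives `‖c i‖ ≤ sqrt 8 / 4 < 0.71`, and `ρ ≤ 1/40`, so the disks are in the unit disk.
* injective: for `i ≠ j`: `|X i - X j| ≥ w > 0`.
* a line `l = {a + t v}` meeting three disks with distinct indices `P, Q, R`: the numbers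
  `h i = -v 1 (x i - a 0) + v 0 (y i - a 1)` are at most `ρ ‖v‖` in absolute value, so (`disk_core`)
  the determinant of `Q - P`, `R - P` is at most `(9/2) ρ (|x Q - x P| + |x R - x P|)` because the
  slopes are at most `2`; on the other hand twice the determinant is at least
  `(w/4) (|x R - x P| + |x Q - x P|)` by `tri` for the two pairs, and this is a contradiction.
* so the set of indices met by `l` has `ncard ≤ 2 ≤ k`.
-/

namespace Pool.Agent.EDW

/-- three points near a line, slopes at most two: the determinant is small -/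
theorem disk_core {v0 v1 L ρ q0 q1 r0 r1 : ℝ} (hL : 0 < L) (hL2 : L ^ 2 = v0 ^ 2 + v1 ^ 2)
    (hρ : 0 ≤ ρ) (hq : |q1| ≤ 2 * |q0|) (hr : |r1| ≤ 2 * |r0|)
    (hhq : |-v1 * q0 + v0 * q1| ≤ 2 * (ρ * L)) (hhr : |-v1 * r0 + v0 * r1| ≤ 2 * (ρ * L)) :
    |q0 * r1 - r0 * q1| ≤ 9 / 2 * ρ * (|q0| + |r0|) := by
  have key : ∀ s0 s1 : ℝ, |s1| ≤ 2 * |s0| → |v0 * s0 + v1 * s1| ≤ 9 / 4 * L * |s0| := by
    intro s0 s1 hs
    apply abs_le_of_sq_le_sq _ (by positivity)
    have h1 : s1 ^ 2 ≤ 4 * s0 ^ 2 := by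
      have := abs_nonneg s1
      have h2 : |s1| ^ 2 ≤ (2 * |s0|) ^ 2 := pow_le_pow_left₀ this hs 2
      rw [mul_pow, sq_abs, sq_abs] at h2
      linarith
    have h3 : (v0 * s0 + v1 * s1) ^ 2 ≤ (v0 ^ 2 + v1 ^ 2) * (s0 ^ 2 + s1 ^ 2) := by
      nlinarith [sq_nonneg (v0 * s1 - v1 * s0)]
    have h4 : (9 / 4 * L * |s0|) ^ 2 = 81 / 16 * L ^ 2 * s0 ^ 2 := by
      rw [mul_pow, mul_pow, sq_abs]
      ring
    rw [h4, hL2]
    have h5 : 0 ≤ v0 ^ 2 + v1 ^ 2 := by positivity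
    have h6 : s0 ^ 2 + s1 ^ 2 ≤ 81 / 16 * s0 ^ 2 := by nlinarith [sq_nonneg s0]
    calc (v0 * s0 + v1 * s1) ^ 2 ≤ (v0 ^ 2 + v1 ^ 2) * (s0 ^ 2 + s1 ^ 2) := h3
      _ ≤ (v0 ^ 2 + v1 ^ 2) * (81 / 16 * s0 ^ 2) := mul_le_mul_of_nonneg_left h6 h5
      _ = 81 / 16 * (v0 ^ 2 + v1 ^ 2) * s0 ^ 2 := by ring
  have e : L ^ 2 * (q0 * r1 - r0 * q1) = (v0 * q0 + v1 * q1) * (-v1 * r0 + v0 * r1) -
      (v0 * r0 + v1 * r1) * (-v1 * q0 + v0 * q1) := by
    rw [hL2]
    ring
  have h1 : L ^ 2 * |q0 * r1 - r0 * q1| ≤ L ^ 2 * (9 / 2 * ρ * (|q0| + |r0|)) := by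
    have e2 : L ^ 2 * |q0 * r1 - r0 * q1| = |L ^ 2 * (q0 * r1 - r0 * q1)| := by
      rw [abs_mul, abs_of_pos (by positivity : 0 < L ^ 2)]
    rw [e2, e]
    refine (abs_sub _ _).trans ?_
    rw [abs_mul, abs_mul]
    have h2 : |v0 * q0 + v1 * q1| * |-v1 * r0 + v0 * r1| ≤ (9 / 4 * L * |q0|) * (2 * (ρ * L)) :=
      mul_le_mul (key q0 q1 hq) hhr (abs_nonneg _) (by positivity)
    have h3 : |v0 * r0 + v1 * r1| * |-v1 * q0 + v0 * q1| ≤ (9 / 4 * L * |r0|) * (2 * (ρ * L)) :=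
      mul_le_mul (key r0 r1 hr) hhq (abs_nonneg _) (by positivity)
    calc _ ≤ (9 / 4 * L * |q0|) * (2 * (ρ * L)) + (9 / 4 * L * |r0|) * (2 * (ρ * L)) :=
          add_le_add h2 h3
      _ = L ^ 2 * (9 / 2 * ρ * (|q0| + |r0|)) := by ring
  exact le_of_mul_le_mul_left h1 (by positivity)

theorem plane_normsq (z : Plane) : ‖z‖ ^ 2 = z 0 ^ 2 + z 1 ^ 2 := by
  rw [EuclideanSpace.norm_sq_eq]
  simp [Fin.sum_univ_two]

/-- a point at distance at most `ρ` of a point of the line `a + t v` -/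
theorem disk_near {a v c : Plane} {ρ t : ℝ} (h : dist (a + t • v) c ≤ ρ) :
    |-v 1 * (c 0 - a 0) + v 0 * (c 1 - a 1)| ≤ ρ * ‖v‖ := by
  have hρ : 0 ≤ ρ := dist_nonneg.trans h
  apply abs_le_of_sq_le_sq _ (by positivity)
  have h1 : ‖c - (a + t • v)‖ ^ 2 ≤ ρ ^ 2 := by
    rw [dist_comm, dist_eq_norm] at h
    exact pow_le_pow_left₀ (norm_nonneg _) h 2
  rw [plane_normsq] at h1
  have e0 : (c - (a + t • v)) 0 = c 0 - a 0 - t * v 0 := by
    simp only [PiLp.sub_apply, PiLp.add_apply, PiLp.smul_apply, smul_eq_mul]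
    ring
  have e1 : (c - (a + t • v)) 1 = c 1 - a 1 - t * v 1 := by
    simp only [PiLp.sub_apply, PiLp.add_apply, PiLp.smul_apply, smul_eq_mul]
    ring
  rw [e0, e1] at h1
  rw [mul_pow, plane_normsq]
  set x := c 0 - a 0
  set y := c 1 - a 1
  have e2 : (-v 1 * x + v 0 * y) ^ 2 ≤
      ((x - t * v 0) ^ 2 + (y - t * v 1) ^ 2) * (v 0 ^ 2 + v 1 ^ 2) := by
    nlinarith [sq_nonneg ((x - t * v 0) * v 0 + (y - t * v 1) * v 1)]
  exact e2.trans (mul_le_mul_of_nonneg_right h1 (by positivity))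

theorem good_admissible {N M : ℕ} {r w : ℝ} (h : Good N M r w) (hw : 0 < w) (hw1 : w ≤ 1)
    {n k : ℕ} (hn : n ≤ N) (hk : 2 ≤ k) : Admissible k n (w / 40) := by
  obtain ⟨X, Y, lev, hG⟩ := h
  refine ⟨by positivity, fun i => WithLp.toLp 2 ![X (Fin.castLE hn i) / 4,
    Y (Fin.castLE hn i) / 4], ?_, ?_, ?_⟩
  · intro i j hij
    by_contra hne
    have h1 : Fin.castLE hn i ≠ Fin.castLE hn j := fun h2 => hne (Fin.castLE_injective hn h2)
    have h2 := hG.gap _ _ h1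
    have h3 : (WithLp.toLp 2 ![X (Fin.castLE hn i) / 4, Y (Fin.castLE hn i) / 4] : Plane) 0 =
      (WithLp.toLp 2 ![X (Fin.castLE hn j) / 4, Y (Fin.castLE hn j) / 4] : Plane) 0 := by
      have := congrArg (fun z : Plane => z 0) hij
      exact this
    simp only [Matrix.cons_val_zero] at h3
    have h4 : X (Fin.castLE hn i) = X (Fin.castLE hn j) := by linarith
    rw [h4, sub_self, abs_zero] at h2
    linarith
  · intro i
    apply Metric.closedBall_subset_closedBall'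
    rw [dist_zero_right]
    have h1 : ‖(WithLp.toLp 2 ![X (Fin.castLE hn i) / 4, Y (Fin.castLE hn i) / 4] : Plane)‖ ≤
        3 / 4 := by
      apply le_of_sq_le_sq _ (by norm_num)
      rw [plane_normsq]
      simp only [Matrix.cons_val_zero, Matrix.cons_val_one]
      have hX := hG.bX (Fin.castLE hn i)
      have hY := hG.bY (Fin.castLE hn i)
      have hX2 : X (Fin.castLE hn i) ^ 2 ≤ 2 ^ 2 := by
        rw [← sq_abs]
        exact pow_le_pow_left₀ (abs_nonneg _) hX 2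
      have hY2 : Y (Fin.castLE hn i) ^ 2 ≤ 2 ^ 2 := by
        rw [← sq_abs]
        exact pow_le_pow_left₀ (abs_nonneg _) hY 2
      nlinarith
    linarith
  · rintro l ⟨a, v, hv, rfl⟩
    refine le_trans ?_ hk
    by_contra hcon
    push Not at hcon
    rw [Set.two_lt_ncard_iff (Set.toFinite _)] at hcon
    obtain ⟨P, Q, R, hP, hQ, hR, hPQ, hPR, hQR⟩ := hcon
    obtain ⟨zP, hzP, tP, rfl⟩ := hP
    obtain ⟨zQ, hzQ, tQ, rfl⟩ := hQ
    obtain ⟨zR, hzR, tR, rfl⟩ := hR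
    have nP := disk_near (Metric.mem_closedBall.1 hzP)
    have nQ := disk_near (Metric.mem_closedBall.1 hzQ)
    have nR := disk_near (Metric.mem_closedBall.1 hzR)
    simp only [Matrix.cons_val_zero, Matrix.cons_val_one] at nP nQ nR
    have hP' : Fin.castLE hn P ≠ Fin.castLE hn Q := fun h2 => hPQ (Fin.castLE_injective hn h2)
    have hPR' : Fin.castLE hn P ≠ Fin.castLE hn R := fun h2 => hPR (Fin.castLE_injective hn h2)
    have hQR' : Fin.castLE hn Q ≠ Fin.castLE hn R := fun h2 => hQR (Fin.castLE_injective hn h2)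
    have t1 := hG.tri _ _ _ hP' hPR' hQR'
    have t2 := hG.tri _ _ _ hPR' hP' hQR'.symm
    have g1 := hG.gap _ _ hP'
    have g2 := hG.gap _ _ hPR'
    have l1 := hG.lip (Fin.castLE hn Q) (Fin.castLE hn P)
    have l2 := hG.lip (Fin.castLE hn R) (Fin.castLE hn P)
    generalize X (Fin.castLE hn P) = xP at *
    generalize X (Fin.castLE hn Q) = xQ at *
    generalize X (Fin.castLE hn R) = xR at *
    generalize Y (Fin.castLE hn P) = yP at *
    generalize Y (Fin.castLE hn Q) = yQ at *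
    generalize Y (Fin.castLE hn R) = yR at *
    have hL : 0 < ‖v‖ := norm_pos_iff.2 hv
    have hsub : ∀ {x y x' y' B : ℝ}, |-v 1 * (x / 4 - a 0) + v 0 * (y / 4 - a 1)| ≤ B →
        |-v 1 * (x' / 4 - a 0) + v 0 * (y' / 4 - a 1)| ≤ B →
        |-v 1 * ((x - x') / 4) + v 0 * ((y - y') / 4)| ≤ 2 * B := by
      intro x y x' y' B h1 h2
      have e : -v 1 * ((x - x') / 4) + v 0 * ((y - y') / 4) =
          (-v 1 * (x / 4 - a 0) + v 0 * (y / 4 - a 1)) -
            (-v 1 * (x' / 4 - a 0) + v 0 * (y' / 4 - a 1)) := by ring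
      rw [e]
      refine (abs_sub _ _).trans ?_
      linarith
    have hq : |(yQ - yP) / 4| ≤ 2 * |(xQ - xP) / 4| := by
      rw [abs_div, abs_div]
      have : |(4 : ℝ)| = 4 := abs_of_pos (by norm_num)
      rw [this]
      linarith
    have hr : |(yR - yP) / 4| ≤ 2 * |(xR - xP) / 4| := by
      rw [abs_div, abs_div]
      have : |(4 : ℝ)| = 4 := abs_of_pos (by norm_num)
      rw [this]
      linarith
    have hcore := disk_core hL (plane_normsq v) (by positivity : 0 ≤ w / 40) hq hr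
      (hsub nQ nP) (hsub nR nP)
    rw [abs_div, abs_div] at hcore
    have h4 : |(4 : ℝ)| = 4 := abs_of_pos (by norm_num)
    rw [h4] at hcore
    have d1 : det3 xP yP xQ yQ xR yR = 16 * ((xQ - xP) / 4 * ((yR - yP) / 4) -
        (xR - xP) / 4 * ((yQ - yP) / 4)) := by
      unfold det3
      ring
    have d2 : det3 xP yP xR yR xQ yQ = -(16 * ((xQ - xP) / 4 * ((yR - yP) / 4) -
        (xR - xP) / 4 * ((yQ - yP) / 4))) := by
      unfold det3
      ring
    rw [d1, abs_mul, abs_of_pos (by norm_num : (0 : ℝ) < 16)] at t1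
    rw [d2, abs_neg, abs_mul, abs_of_pos (by norm_num : (0 : ℝ) < 16)] at t2
    rw [abs_sub_comm xP xQ] at t2 g1
    rw [abs_sub_comm xP xR] at t1 g2
    generalize |(xQ - xP) / 4 * ((yR - yP) / 4) - (xR - xP) / 4 * ((yQ - yP) / 4)| = D at *
    generalize |xQ - xP| = δ1 at *
    generalize |xR - xP| = δ2 at *
    have h5 : w * (δ1 + δ2) ≤ 32 * D := by linarith
    have h6 : 32 * D ≤ 9 / 10 * (w * (δ1 + δ2)) := by
      have : 32 * (9 / 2 * (w / 40) * (δ1 / 4 + δ2 / 4)) = 9 / 10 * (w * (δ1 + δ2)) := by ring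
      linarith
    have h7 : 0 < w * (δ1 + δ2) := by
      have : 0 < δ1 + δ2 := by linarith
      positivity
    linarith

theorem bddAbove_admissible {n k : ℕ} (hn : 1 ≤ n) : BddAbove {r | Admissible k n r} := by
  refine ⟨1, ?_⟩
  rintro r ⟨hr, c, -, hb, -⟩
  have h := hb ⟨0, hn⟩
  set z := c ⟨0, hn⟩
  set e : Plane := EuclideanSpace.single 0 1 with he
  have hen : ‖e‖ = 1 := by rw [he]; simp
  have h1 : z + r • e ∈ Metric.closedBall (0 : Plane) 1 := by
    apply h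
    rw [Metric.mem_closedBall, dist_eq_norm, add_sub_cancel_left, norm_smul, hen, mul_one,
      Real.norm_eq_abs, abs_of_pos hr]
  have h2 : z - r • e ∈ Metric.closedBall (0 : Plane) 1 := by
    apply h
    rw [Metric.mem_closedBall, dist_eq_norm, sub_sub_cancel_left, norm_neg, norm_smul, hen,
      mul_one, Real.norm_eq_abs, abs_of_pos hr]
  rw [mem_closedBall_zero_iff] at h1 h2
  have h3 : ‖(z + r • e) - (z - r • e)‖ ≤ 1 + 1 := (norm_sub_le _ _).trans (add_le_add h1 h2)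
  have h4 : (z + r • e) - (z - r • e) = (2 * r) • e := by
    rw [mul_smul, two_smul]
    abel
  rw [h4, norm_smul, hen, mul_one, Real.norm_eq_abs, abs_of_pos (by linarith)] at h3
  linarith

end Pool.Agent.EDW
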