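import Mathlib

/-!
# Equal disks in the unit disk, no line meeting more than k of them (MP_1780a9_co)

Definitions for the lower bound `r_2(n) >= c n^(-(1+sqrt(2/3))-eps)`.
-/

namespace Pool.Agent.EDW

/-- The Euclidean plane. -/
abbrev Plane : Type := EuclideanSpace ℝ (Fin 2)

/-- Straight lines of the plane. -/
def IsLine (l : Set Plane) : Prop :=
  ∃ a v : Plane, v ≠ 0 ∧ l = {x | ∃ t : ℝ, x = a + t • v}

/-- `r > 0` and there are `n` distinct closed disks of radius `r`, each contained in the closed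
unit disk, such that every straight line meets at most `k` of them. -/
def Admissible (k n : ℕ) (r : ℝ) : Prop :=
  0 < r ∧ ∃ c : Fin n → Plane, Function.Injective c ∧
    (∀ i, Metric.closedBall (c i) r ⊆ Metric.closedBall 0 1) ∧
    ∀ l, IsLine l → {i | (Metric.closedBall (c i) r ∩ l).Nonempty}.ncard ≤ k

/-- `r_k(n)`: the supremum of all admissible radii. -/
noncomputable def rk (k n : ℕ) : ℝ := sSup {r | Admissible k n r}

/-- Twice the signed area of a triangle. -/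
def det3 (x1 y1 x2 y2 x3 y3 : ℝ) : ℝ := (x2 - x1) * (y3 - y1) - (x3 - x1) * (y2 - y1)

/-- A family of points `(X j, Y j)` whose first coordinates are within `r` of the lattice
`(1/M) ℤ` (`lev j` is the lattice index), with all slopes at most 2 and such that all triangles
have width at least about `w` (`|det| >= w * (horizontal distance)`). -/
structure IsGood {ι : Type} (M : ℕ) (r w : ℝ) (X Y : ι → ℝ) (lev : ι → ℕ) : Prop where
  hlev : ∀ j, lev j < M
  hX : ∀ j, |X j - (lev j : ℝ) / M| ≤ r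
  bX : ∀ j, |X j| ≤ 2
  bY : ∀ j, |Y j| ≤ 2
  lip : ∀ j k, |Y j - Y k| ≤ 2 * |X j - X k|
  gap : ∀ j k, j ≠ k → w ≤ |X j - X k|
  tri : ∀ j k l, j ≠ k → j ≠ l → k ≠ l →
    w * |X j - X l| ≤ |det3 (X j) (Y j) (X k) (Y k) (X l) (Y l)|

/-- A good family with `N` points exists. -/
def Good (N M : ℕ) (r w : ℝ) : Prop :=
  ∃ (X Y : Fin N → ℝ) (lev : Fin N → ℕ), IsGood M r w X Y lev

/-- Polynomially dense supply of good families: for all large real `t` there is a good family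
with `M ≍ t^u`, `N ≍ t^U`, `r ≤ C t^(k-2u)` and `t^(-W)/C ≤ w ≤ r`. -/
def Claim (u k U W : ℝ) : Prop :=
  ∃ C : ℝ, 1 ≤ C ∧ ∀ t : ℝ, C ≤ t → ∃ (N M : ℕ) (r w : ℝ), Good N M r w ∧ 0 < w ∧ w ≤ r ∧
    1 ≤ M ∧ t ^ u / C ≤ M ∧ (M : ℝ) ≤ C * t ^ u ∧ t ^ U / C ≤ N ∧ (N : ℝ) ≤ C * t ^ U ∧
    r ≤ C * t ^ (k - 2 * u) ∧ t ^ (-W) / C ≤ w

end Pool.Agent.EDW
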