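import Pool.Agent.EDW.Base

/-!
# One step of the recursion for exponents

`claim_base : Claim 1 0 1 2`: take `M = N = ⌊t⌋₊` (`t/2 ≤ M ≤ t` for `t ≥ 2`), `r = w = 1/M^2`.

`claim_step`: let `k' = (u-k)/2`, `u' = u + 3k'`. Given `t` large, get `N, M, r, w` from the
claim. Let `y = ⌊t^k' / (6C)⌋₊`, `y ≥ 1` for `t` large (`k' > 0`), choose a prime `q` with
`y < q ≤ 2y` (`Nat.exists_prime_lt_and_le_two_mul`), so `t^k' / (12 C) ≤ q ≤ t^k' / (3C)`. Then
`M r ≤ C^2 t^(k-u)` and `8 M r q^2 ≤ 8 C^2 t^(-2k') t^(2k') / (9 C^2) < 1`. With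
`M' = M q^3 ≍ t^u'`, `N' = M' N ≍ t^(U+u')`, `ρ ≍ q / M'^2 ≍ t^(k'-2u')`; the condition
`q / (96 M'^2) ≤ w` holds for `t` large because `q / M'^2 ≤ C' t^(k'-2u')`, `w ≥ t^(-W)/C` and
`W < 2u' - k'`. Finally `r' = 8ρ ≤ C' t^(k'-2u')`, `w' = ρ w / 10 ≥ t^(k'-2u'-W)/C'`, `w' ≤ r'`
because `w ≤ 1` (`w ≤ r`, `8 M r q^2 ≤ 1`).
-/

namespace Pool.Agent.EDW

theorem claim_base : Claim 1 0 1 2 := by
  refine ⟨4, by norm_num, fun t ht => ?_⟩
  have ht0 : 0 < t := by linarith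
  set M := ⌊t⌋₊ with hMd
  have hM1 : (M : ℝ) ≤ t := Nat.floor_le ht0.le
  have hM2 : t < M + 1 := Nat.lt_floor_add_one t
  have hM3 : t / 2 ≤ M := by linarith
  have hM0 : (0 : ℝ) < M := by linarith
  have hMN : 1 ≤ M := by
    have : (0 : ℝ) < M := hM0
    exact_mod_cast this
  have e1 : t ^ (1 : ℝ) = t := Real.rpow_one t
  have e2 : t ^ ((0 : ℝ) - 2 * 1) = 1 / t ^ 2 := by
    rw [show ((0 : ℝ) - 2 * 1) = -((2 : ℕ) : ℝ) by norm_num, Real.rpow_neg ht0.le,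
      Real.rpow_natCast, one_div]
  have e3 : t ^ (-(2 : ℝ)) = 1 / t ^ 2 := by
    rw [show (-(2 : ℝ)) = -((2 : ℕ) : ℝ) by norm_num, Real.rpow_neg ht0.le,
      Real.rpow_natCast, one_div]
  refine ⟨M, M, 1 / (M : ℝ) ^ 2, 1 / (M : ℝ) ^ 2, good_base M hMN, by positivity, le_rfl, hMN,
    ?_, ?_, ?_, ?_, ?_, ?_⟩
  · rw [e1]; linarith
  · rw [e1]; linarith
  · rw [e1]; linarith
  · rw [e1]; linarith
  · rw [e2]
    rw [mul_one_div, div_le_div_iff₀ (by positivity) (by positivity)]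
    nlinarith
  · rw [e3, div_div]
    apply one_div_le_one_div_of_le (by positivity)
    nlinarith

theorem claim_step {u k U W : ℝ} (h : Claim u k U W) (hk : 0 ≤ k) (hku : k < u)
    (hW : W < 2 * (u + 3 * ((u - k) / 2)) - (u - k) / 2) :
    Claim (u + 3 * ((u - k) / 2)) ((u - k) / 2) (U + (u + 3 * ((u - k) / 2)))
      (W + (2 * (u + 3 * ((u - k) / 2)) - (u - k) / 2)) := by
  obtain ⟨C, hC, hcl⟩ := h
  set k' := (u - k) / 2 with hk'
  have hk'0 : 0 < k' := by linarith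
  set ε := 2 * u + 5 * k' - W with hε
  have hε0 : 0 < ε := by linarith
  have hC0 : 0 < C := by linarith
  set K := 17920 * (C ^ 2 * (6 * C) ^ 5) with hK
  have hp1 : 0 ≤ (6 * C) ^ (1 / k') := by positivity
  have hp2 : 0 ≤ (C ^ 3 * (6 * C) ^ 5) ^ (1 / ε) := by positivity
  have hKC : C ≤ K := by
    have h1 : 1 ≤ C ^ 6 := one_le_pow₀ hC
    have h2 : K = 17920 * 6 ^ 5 * (C ^ 6 * C) := by rw [hK]; ring
    rw [h2]
    have h3 : 1 * C ≤ C ^ 6 * C := mul_le_mul_of_nonneg_right h1 hC0.le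
    linarith
  refine ⟨C + (6 * C) ^ (1 / k') + (C ^ 3 * (6 * C) ^ 5) ^ (1 / ε) + K, by linarith,
    fun t ht => ?_⟩
  have htC : C ≤ t := by linarith
  have ht0 : 0 < t := by linarith
  have hb6 : 6 * C ≤ t ^ k' := by
    have h1 : (6 * C) ^ (1 / k') ≤ t := by linarith
    have h2 := Real.rpow_le_rpow hp1 h1 hk'0.le
    rwa [← Real.rpow_mul (by positivity), one_div_mul_cancel hk'0.ne', Real.rpow_one] at h2
  have hce : C ^ 3 * (6 * C) ^ 5 ≤ t ^ ε := by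
    have h1 : (C ^ 3 * (6 * C) ^ 5) ^ (1 / ε) ≤ t := by linarith
    have h2 := Real.rpow_le_rpow hp2 h1 hε0.le
    rwa [← Real.rpow_mul (by positivity), one_div_mul_cancel hε0.ne', Real.rpow_one] at h2
  set D := C + (6 * C) ^ (1 / k') + (C ^ 3 * (6 * C) ^ 5) ^ (1 / ε) + K with hD
  have hKD : K ≤ D := by linarith
  have hD0 : 0 < D := by linarith
  obtain ⟨N, M, r, w, hG, hw0, hwr, hM, hM1, hM2, hN1, hN2, hr, hw⟩ := hcl t htC
  have ha0 : 0 < t ^ u := Real.rpow_pos_of_pos ht0 u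
  have hb0 : 0 < t ^ k' := Real.rpow_pos_of_pos ht0 k'
  have hc0 : 0 < t ^ W := Real.rpow_pos_of_pos ht0 W
  have he0 : 0 < t ^ U := Real.rpow_pos_of_pos ht0 U
  have hbn : ∀ n : ℕ, t ^ ((n : ℝ) * k') = (t ^ k') ^ n := by
    intro n
    rw [mul_comm, Real.rpow_mul ht0.le, Real.rpow_natCast]
  have han : ∀ n : ℕ, t ^ ((n : ℝ) * u) = (t ^ u) ^ n := by
    intro n
    rw [mul_comm, Real.rpow_mul ht0.le, Real.rpow_natCast]
  have i1 : t ^ (u + 3 * k') = t ^ u * (t ^ k') ^ 3 := by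
    rw [Real.rpow_add ht0, ← hbn 3]
    norm_num
  have i2 : t ^ (U + (u + 3 * k')) = t ^ U * (t ^ u * (t ^ k') ^ 3) := by
    rw [Real.rpow_add ht0, i1]
  have i3 : t ^ (k - 2 * u) = 1 / (t ^ u * (t ^ k') ^ 2) := by
    have e1 : k - 2 * u = -(u + ((2 : ℕ) : ℝ) * k') := by
      rw [hk']; push_cast; ring
    rw [e1, Real.rpow_neg ht0.le, Real.rpow_add ht0, hbn 2, one_div]
  have i4 : t ^ (k' - 2 * (u + 3 * k')) = 1 / ((t ^ u) ^ 2 * (t ^ k') ^ 5) := by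
    have e1 : k' - 2 * (u + 3 * k') = -(((2 : ℕ) : ℝ) * u + ((5 : ℕ) : ℝ) * k') := by
      push_cast; ring
    rw [e1, Real.rpow_neg ht0.le, Real.rpow_add ht0, hbn 5, han 2, one_div]
  have i5 : t ^ (-(W + (2 * (u + 3 * k') - k'))) =
      1 / (t ^ W * ((t ^ u) ^ 2 * (t ^ k') ^ 5)) := by
    have e1 : -(W + (2 * (u + 3 * k') - k')) =
        -(W + (((2 : ℕ) : ℝ) * u + ((5 : ℕ) : ℝ) * k')) := by
      push_cast; ring
    rw [e1, Real.rpow_neg ht0.le, Real.rpow_add ht0, Real.rpow_add ht0, hbn 5, han 2, one_div]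
  have i6 : t ^ (-W) = 1 / t ^ W := by rw [Real.rpow_neg ht0.le, one_div]
  have i7 : t ^ ε * t ^ W = (t ^ u) ^ 2 * (t ^ k') ^ 5 := by
    rw [← Real.rpow_add ht0]
    have e1 : ε + W = ((2 : ℕ) : ℝ) * u + ((5 : ℕ) : ℝ) * k' := by
      rw [hε]; push_cast; ring
    rw [e1, Real.rpow_add ht0, hbn 5, han 2]
  rw [i3] at hr
  rw [i6] at hw
  rw [i1, i2, i4, i5]
  clear_value k' ε
  generalize t ^ u = a at *
  generalize t ^ k' = b at *
  generalize t ^ W = c at *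
  generalize t ^ U = e at *
  generalize t ^ ε = f at *
  -- the prime
  set y := ⌊b / (6 * C)⌋₊ with hy
  have hbC : 1 ≤ b / (6 * C) := by
    rw [le_div_iff₀ (by positivity)]; linarith
  have hy1 : 1 ≤ y := by
    rw [hy]
    exact Nat.le_floor (by simpa using hbC)
  have hy2 : (y : ℝ) ≤ b / (6 * C) := Nat.floor_le (by positivity)
  have hy3 : b / (6 * C) < y + 1 := Nat.lt_floor_add_one _
  obtain ⟨q, hq, hyq, hqy⟩ := Nat.exists_prime_lt_and_le_two_mul y (by omega)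
  have hq1 : b / (6 * C) ≤ q := by
    have : ((y + 1 : ℕ) : ℝ) ≤ q := by exact_mod_cast hyq
    push_cast at this
    linarith
  have hq2 : (q : ℝ) ≤ b / (3 * C) := by
    have h1 : (q : ℝ) ≤ 2 * y := by exact_mod_cast hqy
    have h2 : b / (3 * C) = 2 * (b / (6 * C)) := by
      field_simp
      norm_num
    rw [h2]
    linarith
  have hq0 : (0 : ℝ) < q := lt_of_lt_of_le (by positivity) hq1
  have hM0 : (0 : ℝ) < M := lt_of_lt_of_le (by positivity) hM1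
  have hq1' : b ≤ 6 * C * q := by
    rw [div_le_iff₀ (by positivity)] at hq1; linarith
  have hq2' : 3 * C * q ≤ b := by
    rw [le_div_iff₀ (by positivity)] at hq2; linarith
  have hM1' : a ≤ C * M := by
    rw [div_le_iff₀ hC0] at hM1; linarith
  have hN1' : e ≤ C * N := by
    rw [div_le_iff₀ hC0] at hN1; linarith
  have hqb : (q : ℝ) ≤ b :=
    (le_mul_of_one_le_left hq0.le (by linarith : 1 ≤ 3 * C)).trans hq2'
  -- the two conditions
  have hr1 : 8 * (M : ℝ) * r * (q : ℝ) ^ 2 ≤ 1 := by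
    have h1 : r * (a * b ^ 2) ≤ C := by
      rw [mul_one_div, le_div_iff₀ (by positivity)] at hr
      exact hr
    have hr0 : 0 < r := lt_of_lt_of_le hw0 hwr
    have h2 : (M : ℝ) * (3 * C * q) ^ 2 ≤ C * (a * b ^ 2) := by
      calc (M : ℝ) * (3 * C * q) ^ 2 ≤ (C * a) * b ^ 2 := by
            apply mul_le_mul hM2 (pow_le_pow_left₀ (by positivity) hq2' 2) (by positivity)
              (by positivity)
        _ = C * (a * b ^ 2) := by ring
    have h3 : r * ((M : ℝ) * (3 * C * q) ^ 2) ≤ C * C := by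
      calc r * ((M : ℝ) * (3 * C * q) ^ 2) ≤ r * (C * (a * b ^ 2)) :=
            mul_le_mul_of_nonneg_left h2 hr0.le
        _ = C * (r * (a * b ^ 2)) := by ring
        _ ≤ C * C := mul_le_mul_of_nonneg_left h1 hC0.le
    have h4 : C ^ 2 * (9 * (M * r * (q : ℝ) ^ 2)) ≤ C ^ 2 * 1 := by
      calc C ^ 2 * (9 * (M * r * (q : ℝ) ^ 2)) = r * ((M : ℝ) * (3 * C * q) ^ 2) := by ring
        _ ≤ C * C := h3
        _ = C ^ 2 * 1 := by ring
    have h5 := le_of_mul_le_mul_left h4 (by positivity)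
    have h6 : 0 ≤ (M : ℝ) * r * (q : ℝ) ^ 2 := by positivity
    linarith
  have hlow : a ^ 2 * b ^ 5 ≤ C ^ 2 * (6 * C) ^ 5 * ((M : ℝ) ^ 2 * q ^ 5) := by
    calc a ^ 2 * b ^ 5 ≤ (C * M) ^ 2 * (6 * C * q) ^ 5 := by
          apply mul_le_mul (pow_le_pow_left₀ ha0.le hM1' 2) (pow_le_pow_left₀ hb0.le hq1' 5)
            (by positivity) (by positivity)
      _ = C ^ 2 * (6 * C) ^ 5 * ((M : ℝ) ^ 2 * q ^ 5) := by ring
  have hup : (M : ℝ) ^ 2 * q ^ 5 ≤ C ^ 2 * (a ^ 2 * b ^ 5) := by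
    calc (M : ℝ) ^ 2 * q ^ 5 ≤ (C * a) ^ 2 * b ^ 5 := by
          apply mul_le_mul (pow_le_pow_left₀ hM0.le hM2 2) (pow_le_pow_left₀ hq0.le hqb 5)
            (by positivity) (by positivity)
      _ = C ^ 2 * (a ^ 2 * b ^ 5) := by ring
  have hQ : ∀ s : ℝ, 0 < s → (q : ℝ) / (s * ((M : ℝ) * q ^ 3) ^ 2) =
      1 / (s * ((M : ℝ) ^ 2 * q ^ 5)) := by
    intro s hs
    field_simp
  have hqw : (q : ℝ) / (96 * ((M : ℝ) * q ^ 3) ^ 2) ≤ w := by
    rw [hQ 96 (by norm_num)]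
    refine le_trans ?_ hw
    rw [div_div, div_le_div_iff₀ (by positivity) (by positivity), one_mul, one_mul]
    have h1 : C ^ 3 * (6 * C) ^ 5 * c ≤ a ^ 2 * b ^ 5 := by
      rw [← i7]
      exact mul_le_mul_of_nonneg_right hce hc0.le
    have h2 := h1.trans hlow
    have h3 : C ^ 2 * (6 * C) ^ 5 * (c * C) ≤ C ^ 2 * (6 * C) ^ 5 * ((M : ℝ) ^ 2 * q ^ 5) := by
      calc C ^ 2 * (6 * C) ^ 5 * (c * C) = C ^ 3 * (6 * C) ^ 5 * c := by ring
        _ ≤ _ := h2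
    have h4 := le_of_mul_le_mul_left h3 (by positivity)
    have h5 : 0 ≤ (M : ℝ) ^ 2 * q ^ 5 := by positivity
    linarith
  obtain ⟨ρ, hρ1, hρ2, hG'⟩ := good_step hG hM hw0 hwr hq hr1 hqw
  rw [hQ 1792 (by norm_num)] at hρ1
  rw [hQ 1536 (by norm_num)] at hρ2
  have hρ0 : 0 < ρ := lt_of_lt_of_le (by positivity) hρ1
  have hw1 : w ≤ 1 := by
    have h1 : (1 : ℝ) ≤ M := by exact_mod_cast hM
    have h2 : (1 : ℝ) ≤ q := by exact_mod_cast hq.one_lt.le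
    have h3 : (1 : ℝ) ≤ M * (q : ℝ) ^ 2 := by
      exact one_le_mul_of_one_le_of_one_le h1 (one_le_pow₀ h2)
    have hr0 : 0 < r := lt_of_lt_of_le hw0 hwr
    have h4 : r ≤ 8 * (M : ℝ) * r * (q : ℝ) ^ 2 := by
      have : 8 * (M : ℝ) * r * (q : ℝ) ^ 2 = 8 * r * (M * (q : ℝ) ^ 2) := by ring
      rw [this]
      have h5 : r * 1 ≤ r * (M * (q : ℝ) ^ 2) := mul_le_mul_of_nonneg_left h3 hr0.le
      linarith
    linarith
  have hcast : ((M * q ^ 3 : ℕ) : ℝ) = (M : ℝ) * q ^ 3 := by push_cast; ring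
  have hcast2 : ((M * q ^ 3 * N : ℕ) : ℝ) = (M : ℝ) * q ^ 3 * N := by push_cast; ring
  have hC2 : 1 ≤ C ^ 2 := one_le_pow₀ hC
  have h6C : 1 ≤ 6 * C := by linarith
  have hKm : ∀ z : ℝ, z ≤ C ^ 2 * (6 * C) ^ 5 → z ≤ D := by
    intro z hz
    have : 0 ≤ C ^ 2 * (6 * C) ^ 5 := by positivity
    linarith
  have hMM : a * b ^ 3 ≤ C * (6 * C) ^ 3 * ((M : ℝ) * q ^ 3) := by
    calc a * b ^ 3 ≤ (C * M) * (6 * C * q) ^ 3 := by
          apply mul_le_mul hM1' (pow_le_pow_left₀ hb0.le hq1' 3) (by positivity) (by positivity)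
      _ = C * (6 * C) ^ 3 * ((M : ℝ) * q ^ 3) := by ring
  have hMM2 : (M : ℝ) * q ^ 3 ≤ C * (a * b ^ 3) := by
    calc (M : ℝ) * q ^ 3 ≤ (C * a) * b ^ 3 := by
          apply mul_le_mul hM2 (pow_le_pow_left₀ hq0.le hqb 3) (by positivity) (by positivity)
      _ = C * (a * b ^ 3) := by ring
  have k4 : C ≤ C ^ 2 := by
    rw [pow_two]
    exact le_mul_of_one_le_left hC0.le hC
  have k1 : C * (6 * C) ^ 3 ≤ C ^ 2 * (6 * C) ^ 5 :=
    mul_le_mul k4 (pow_le_pow_right₀ h6C (by norm_num)) (by positivity) (by positivity)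
  have k2 : C ^ 2 * (6 * C) ^ 3 ≤ C ^ 2 * (6 * C) ^ 5 :=
    mul_le_mul_of_nonneg_left (pow_le_pow_right₀ h6C (by norm_num)) (by positivity)
  have k3 : C ^ 2 ≤ C ^ 2 * (6 * C) ^ 5 :=
    le_mul_of_one_le_right (by positivity) (one_le_pow₀ h6C)
  refine ⟨(M * q ^ 3) * N, M * q ^ 3, 8 * ρ, ρ * w / 10, hG', by positivity, ?_, ?_, ?_, ?_, ?_,
    ?_, ?_, ?_⟩
  · have h1 := mul_le_mul_of_nonneg_left hw1 hρ0.le
    linarith
  · have : 0 < M * q ^ 3 := Nat.mul_pos hM (pow_pos hq.pos 3)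
    exact this
  · rw [hcast, div_le_iff₀ hD0]
    refine hMM.trans ?_
    rw [mul_comm]
    exact mul_le_mul_of_nonneg_left (hKm _ k1) (by positivity)
  · rw [hcast]
    refine hMM2.trans ?_
    exact mul_le_mul_of_nonneg_right (hKm _ (k4.trans k3)) (by positivity)
  · rw [hcast2, div_le_iff₀ hD0]
    calc e * (a * b ^ 3) ≤ (C * N) * (C * (6 * C) ^ 3 * ((M : ℝ) * q ^ 3)) := by
          apply mul_le_mul hN1' hMM (by positivity) (by positivity)
      _ = (M : ℝ) * q ^ 3 * N * (C ^ 2 * (6 * C) ^ 3) := by ring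
      _ ≤ (M : ℝ) * q ^ 3 * N * D :=
          mul_le_mul_of_nonneg_left (hKm _ k2) (by positivity)
  · rw [hcast2]
    calc (M : ℝ) * q ^ 3 * N ≤ (C * (a * b ^ 3)) * (C * e) := by
          apply mul_le_mul hMM2 hN2 (by positivity) (by positivity)
      _ = C ^ 2 * (e * (a * b ^ 3)) := by ring
      _ ≤ D * (e * (a * b ^ 3)) :=
          mul_le_mul_of_nonneg_right (hKm _ k3) (by positivity)
  · calc 8 * ρ ≤ 8 * (1 / (1536 * ((M : ℝ) ^ 2 * q ^ 5))) := by linarith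
      _ ≤ D * (1 / (a ^ 2 * b ^ 5)) := by
          rw [mul_one_div, mul_one_div, div_le_div_iff₀ (by positivity) (by positivity)]
          have h1 : a ^ 2 * b ^ 5 ≤ D * ((M : ℝ) ^ 2 * q ^ 5) :=
            hlow.trans (mul_le_mul_of_nonneg_right (hKm _ le_rfl) (by positivity))
          have h2 : 0 ≤ D * ((M : ℝ) ^ 2 * q ^ 5) := by positivity
          linarith
  · have h1 : 1 / (1792 * ((M : ℝ) ^ 2 * q ^ 5)) * (1 / c / C) / 10 ≤ ρ * w / 10 := by
      apply div_le_div_of_nonneg_right _ (by norm_num)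
      exact mul_le_mul hρ1 hw (by positivity) hρ0.le
    refine le_trans ?_ h1
    have e1 : 1 / (1792 * ((M : ℝ) ^ 2 * q ^ 5)) * (1 / c / C) / 10 =
        1 / (17920 * (C * (c * ((M : ℝ) ^ 2 * q ^ 5)))) := by
      field_simp
      norm_num
    rw [e1, div_div]
    apply one_div_le_one_div_of_le (by positivity)
    calc 17920 * (C * (c * ((M : ℝ) ^ 2 * q ^ 5))) ≤ 17920 * (C * (c * (C ^ 2 * (a ^ 2 * b ^ 5)))) := by
          have := mul_le_mul_of_nonneg_left hup (by positivity : 0 ≤ 17920 * (C * c))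
          linarith
      _ = c * (a ^ 2 * b ^ 5) * (17920 * C ^ 3) := by ring
      _ ≤ c * (a ^ 2 * b ^ 5) * D := by
          apply mul_le_mul_of_nonneg_left _ (by positivity)
          refine le_trans ?_ hKD
          rw [hK]
          have h2 : C ^ 3 ≤ C ^ 2 * (6 * C) ^ 5 := by
            have : C ^ 3 = C ^ 2 * C := by ring
            rw [this]
            apply mul_le_mul_of_nonneg_left _ (by positivity)
            calc C ≤ 6 * C := by linarith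
              _ = (6 * C) ^ 1 := (pow_one _).symm
              _ ≤ (6 * C) ^ 5 := pow_le_pow_right₀ h6C (by norm_num)
          linarith

end Pool.Agent.EDW
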