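import Pool.Agent.EDW.Step

/-!
# Base family, reindexing, one step for `Good`

* `Good.transfer`: a good family indexed by a type equivalent to `Fin N`.
* `good_base`: `X l = l/M`, `Y l = (l/M)^2`, `lev l = l`, `r = w = 1/M^2`.
  (`det3 = (x2-x1)(x3-x1)(x3-x2)` and two different points have distance at least `1/M`.)
* `good_step`: `step` with index type `Fin M' × Fin N ≃ Fin (M' * N)` (`finProdFinEquiv`), and with
  `p = 6 M` or `p = 6 M + 1`, whichever is not divisible by `q`; so `6M ≤ p ≤ 7M`, and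
  `ρ = M q / (256 p M'^2)` lies between `q / (1792 M'^2)` and `q / (1536 M'^2)`.
-/

namespace Pool.Agent.EDW

theorem IsGood.good {ι : Type} {N M : ℕ} {r w : ℝ} {X Y : ι → ℝ} {lev : ι → ℕ}
    (h : IsGood M r w X Y lev) (e : ι ≃ Fin N) : Good N M r w := by
  refine ⟨fun i => X (e.symm i), fun i => Y (e.symm i), fun i => lev (e.symm i), ?_⟩
  refine ⟨fun j => h.hlev _, fun j => h.hX _, fun j => h.bX _, fun j => h.bY _,
    fun j k => h.lip _ _, ?_, ?_⟩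
  · intro j k hjk
    exact h.gap _ _ (fun hh => hjk (e.symm.injective hh))
  · intro j k l hjk hjl hkl
    exact h.tri _ _ _ (fun hh => hjk (e.symm.injective hh)) (fun hh => hjl (e.symm.injective hh))
      (fun hh => hkl (e.symm.injective hh))

theorem good_base (M : ℕ) (hM : 1 ≤ M) : Good M M (1 / (M : ℝ) ^ 2) (1 / (M : ℝ) ^ 2) := by
  have hM1 : (1 : ℝ) ≤ M := by exact_mod_cast hM
  have hM0 : (0 : ℝ) < M := by linarith
  have hx0 : ∀ j : Fin M, 0 ≤ ((j : ℕ) : ℝ) / M := fun j => by positivity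
  have hx1 : ∀ j : Fin M, ((j : ℕ) : ℝ) / M ≤ 1 := by
    intro j
    rw [div_le_one hM0]
    exact_mod_cast j.isLt.le
  have hgap : ∀ j k : Fin M, j ≠ k → 1 / (M : ℝ) ≤ |((j : ℕ) : ℝ) / M - ((k : ℕ) : ℝ) / M| := by
    intro j k hjk
    have h1 : ((j : ℕ) : ℤ) - ((k : ℕ) : ℤ) ≠ 0 := by
      intro h0
      apply hjk
      apply Fin.ext
      omega
    have h2 : (1 : ℤ) ≤ |((j : ℕ) : ℤ) - ((k : ℕ) : ℤ)| := Int.one_le_abs h1
    have h3 : (1 : ℝ) ≤ |((j : ℕ) : ℝ) - ((k : ℕ) : ℝ)| := by exact_mod_cast h2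
    rw [← sub_div, abs_div, abs_of_pos hM0]
    exact div_le_div_of_nonneg_right h3 hM0.le
  have hMM : 1 / (M : ℝ) ^ 2 ≤ 1 / (M : ℝ) := by
    apply one_div_le_one_div_of_le hM0
    nlinarith
  refine ⟨fun l => ((l : ℕ) : ℝ) / M, fun l => (((l : ℕ) : ℝ) / M) ^ 2, fun l => (l : ℕ), ?_⟩
  refine ⟨fun j => j.isLt, ?_, ?_, ?_, ?_, ?_, ?_⟩
  · intro j
    show |((j : ℕ) : ℝ) / M - ((j : ℕ) : ℝ) / M| ≤ 1 / (M : ℝ) ^ 2
    rw [sub_self, abs_zero]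
    positivity
  · intro j
    show |((j : ℕ) : ℝ) / M| ≤ 2
    rw [abs_of_nonneg (hx0 j)]
    linarith [hx1 j]
  · intro j
    show |(((j : ℕ) : ℝ) / M) ^ 2| ≤ 2
    rw [abs_of_nonneg (by positivity)]
    nlinarith [hx0 j, hx1 j]
  · intro j k
    show |(((j : ℕ) : ℝ) / M) ^ 2 - (((k : ℕ) : ℝ) / M) ^ 2| ≤ 2 * |((j : ℕ) : ℝ) / M - ((k : ℕ) : ℝ) / M|
    have e1 : (((j : ℕ) : ℝ) / M) ^ 2 - (((k : ℕ) : ℝ) / M) ^ 2 =
        (((j : ℕ) : ℝ) / M + ((k : ℕ) : ℝ) / M) * (((j : ℕ) : ℝ) / M - ((k : ℕ) : ℝ) / M) := by ring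
    rw [e1, abs_mul]
    apply mul_le_mul_of_nonneg_right _ (abs_nonneg _)
    rw [abs_of_nonneg (add_nonneg (hx0 j) (hx0 k))]
    linarith [hx1 j, hx1 k]
  · intro j k hjk
    exact hMM.trans (hgap j k hjk)
  · intro j k l hjk hjl hkl
    show 1 / (M : ℝ) ^ 2 * |((j : ℕ) : ℝ) / M - ((l : ℕ) : ℝ) / M| ≤
      |det3 (((j : ℕ) : ℝ) / M) ((((j : ℕ) : ℝ) / M) ^ 2) (((k : ℕ) : ℝ) / M)
        ((((k : ℕ) : ℝ) / M) ^ 2) (((l : ℕ) : ℝ) / M) ((((l : ℕ) : ℝ) / M) ^ 2)|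
    have e1 : det3 (((j : ℕ) : ℝ) / M) ((((j : ℕ) : ℝ) / M) ^ 2) (((k : ℕ) : ℝ) / M)
        ((((k : ℕ) : ℝ) / M) ^ 2) (((l : ℕ) : ℝ) / M) ((((l : ℕ) : ℝ) / M) ^ 2) =
        -((((j : ℕ) : ℝ) / M - ((k : ℕ) : ℝ) / M) * (((k : ℕ) : ℝ) / M - ((l : ℕ) : ℝ) / M) *
          (((j : ℕ) : ℝ) / M - ((l : ℕ) : ℝ) / M)) := by
      unfold det3
      ring
    rw [e1, abs_neg, abs_mul, abs_mul]
    apply mul_le_mul_of_nonneg_right _ (abs_nonneg _)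
    have e2 : 1 / (M : ℝ) ^ 2 = 1 / (M : ℝ) * (1 / (M : ℝ)) := by
      rw [pow_two, one_div_mul_one_div]
    rw [e2]
    exact mul_le_mul (hgap j k hjk) (hgap k l hkl) (by positivity) (abs_nonneg _)

theorem good_step {N M : ℕ} {r w : ℝ} (h : Good N M r w) (hM : 1 ≤ M) (hw : 0 < w) (hwr : w ≤ r)
    {q : ℕ} (hq : q.Prime) (hr : 8 * (M : ℝ) * r * (q : ℝ) ^ 2 ≤ 1)
    (hqw : (q : ℝ) / (96 * ((M : ℝ) * q ^ 3) ^ 2) ≤ w) :
    ∃ ρ : ℝ, (q : ℝ) / (1792 * ((M : ℝ) * q ^ 3) ^ 2) ≤ ρ ∧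
      ρ ≤ (q : ℝ) / (1536 * ((M : ℝ) * q ^ 3) ^ 2) ∧
      Good ((M * q ^ 3) * N) (M * q ^ 3) (8 * ρ) (ρ * w / 10) := by
  obtain ⟨X, Y, lev, hG⟩ := h
  obtain ⟨p, hqp, hp1, hp2⟩ : ∃ p : ℕ, ¬ q ∣ p ∧ 6 * M ≤ p ∧ p ≤ 7 * M := by
    by_cases h6 : q ∣ 6 * M
    · refine ⟨6 * M + 1, ?_, by omega, by omega⟩
      intro h7
      have h8 : q ∣ 1 := (Nat.dvd_add_right h6).1 h7
      exact hq.one_lt.ne' (Nat.dvd_one.1 h8)
    · exact ⟨6 * M, h6, le_rfl, by omega⟩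
  have hM1 : (1 : ℝ) ≤ M := by exact_mod_cast hM
  have hM0 : (0 : ℝ) < M := by linarith
  have hq0 : (0 : ℝ) < q := by exact_mod_cast hq.pos
  have hp1' : 6 * (M : ℝ) ≤ p := by exact_mod_cast hp1
  have hp2' : (p : ℝ) ≤ 7 * M := by exact_mod_cast hp2
  have hp0 : (0 : ℝ) < p := by linarith
  have hD : (0 : ℝ) < ((M : ℝ) * q ^ 3) ^ 2 := by positivity
  have hcast : ((M * q ^ 3 : ℕ) : ℝ) = (M : ℝ) * q ^ 3 := by push_cast; ring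
  have b1 : (q : ℝ) / (1792 * ((M : ℝ) * q ^ 3) ^ 2) ≤
      (M : ℝ) * q / (256 * p * ((M : ℝ) * q ^ 3) ^ 2) := by
    rw [div_le_div_iff₀ (by positivity) (by positivity)]
    have : (q : ℝ) * (256 * p * ((M : ℝ) * q ^ 3) ^ 2) =
        (256 * (q * ((M : ℝ) * q ^ 3) ^ 2)) * p := by ring
    rw [this]
    have : (M : ℝ) * q * (1792 * ((M : ℝ) * q ^ 3) ^ 2) =
        (256 * (q * ((M : ℝ) * q ^ 3) ^ 2)) * (7 * M) := by ring
    rw [this]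
    exact mul_le_mul_of_nonneg_left hp2' (by positivity)
  have b2 : (M : ℝ) * q / (256 * p * ((M : ℝ) * q ^ 3) ^ 2) ≤
      (q : ℝ) / (1536 * ((M : ℝ) * q ^ 3) ^ 2) := by
    rw [div_le_div_iff₀ (by positivity) (by positivity)]
    have : (q : ℝ) * (256 * p * ((M : ℝ) * q ^ 3) ^ 2) =
        (256 * (q * ((M : ℝ) * q ^ 3) ^ 2)) * p := by ring
    rw [this]
    have : (M : ℝ) * q * (1536 * ((M : ℝ) * q ^ 3) ^ 2) =
        (256 * (q * ((M : ℝ) * q ^ 3) ^ 2)) * (6 * M) := by ring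
    rw [this]
    exact mul_le_mul_of_nonneg_left hp1' (by positivity)
  have b3 : 16 * ((M : ℝ) * q / (256 * p * ((M : ℝ) * q ^ 3) ^ 2)) ≤ w := by
    refine le_trans ?_ hqw
    have e1 : (q : ℝ) / (96 * ((M : ℝ) * q ^ 3) ^ 2) =
        16 * ((q : ℝ) / (1536 * ((M : ℝ) * q ^ 3) ^ 2)) := by
      field_simp
      norm_num
    rw [e1]
    linarith
  have hS := step hG hM hw hwr hq hqp hp1 hr (M' := M * q ^ 3) rfl
    (ρ := (M : ℝ) * q / (256 * p * ((M * q ^ 3 : ℕ) : ℝ) ^ 2)) rfl (by rw [hcast]; exact b3)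
  rw [hcast] at hS
  exact ⟨_, b1, b2, hS.good finProdFinEquiv⟩

end Pool.Agent.EDW
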