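import Pool.Agent.EDW.Iter
import Pool.Agent.EDW.Disk

/-! See the header of `Iter.lean` (`exists_admissible`). -/

namespace Pool.Agent.EDW

theorem exists_admissible (ε : ℝ) (hε : 0 < ε) : ∃ c : ℝ, 0 < c ∧ ∀ n k : ℕ, 1 ≤ n → 2 ≤ k →
    ∃ r : ℝ, c * (n : ℝ) ^ (-(1 + Real.sqrt (2 / 3) + ε)) ≤ r ∧ Admissible k n r := by
  obtain ⟨s, hs⟩ := exists_nat_one_div_lt hε
  obtain ⟨u, κ, U, W, ⟨C, hC1, hC⟩, hu, -, -, hU, -, hW0, hW⟩ := claim_iter s
  have hC0 : 0 < C := by linarith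
  have hs0 : (0 : ℝ) < (s : ℝ) + 1 := by positivity
  have hU0 : 0 < U := by linarith
  have hUε : 1 / U ≤ ε := (one_div_le_one_div_of_le hs0 hU).trans hs.le
  have hWU : W / U ≤ 1 + Real.sqrt (2 / 3) + ε := by
    rw [div_le_iff₀ hU0]
    have h1 : 1 ≤ ε * U := by
      have := mul_le_mul_of_nonneg_right hUε hU0.le
      rwa [one_div, inv_mul_cancel₀ hU0.ne'] at this
    nlinarith
  obtain ⟨c1, hc1⟩ : ∃ c1, c1 = C ^ (-W) * C ^ (-(W / U)) / C := ⟨_, rfl⟩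
  have hc1p : 0 < c1 := by
    rw [hc1]
    positivity
  refine ⟨min c1 1 / 40, by positivity, ?_⟩
  intro n k hn hk
  have hn1 : (1 : ℝ) ≤ n := by exact_mod_cast hn
  have hn0 : (0 : ℝ) < n := by linarith
  have hCn : 1 ≤ C * n := by nlinarith
  have hCn0 : 0 < C * n := by linarith
  obtain ⟨t, ht⟩ : ∃ t, t = C * (C * n) ^ (1 / U) := ⟨_, rfl⟩
  have hx1 : 1 ≤ (C * n) ^ (1 / U) := Real.one_le_rpow hCn (by positivity)
  have htC : C ≤ t := by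
    rw [ht]
    nlinarith
  have ht0 : 0 < t := by linarith
  obtain ⟨N, M, r, w, hG, hw, -, -, -, -, hN, -, -, hwt⟩ := hC t htC
  have htU : t ^ U = C ^ U * (C * n) := by
    rw [ht, Real.mul_rpow hC0.le (by positivity), ← Real.rpow_mul hCn0.le, one_div,
      inv_mul_cancel₀ hU0.ne', Real.rpow_one]
  have hnN : n ≤ N := by
    have h1 : (n : ℝ) ≤ N := by
      refine le_trans ?_ hN
      rw [htU, le_div_iff₀ hC0]
      have h2 : 1 ≤ C ^ U := Real.one_le_rpow hC1 hU0.le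
      nlinarith [mul_pos hn0 hC0]
    exact_mod_cast h1
  have htW : t ^ (-W) = C ^ (-W) * (C ^ (-(W / U)) * (n : ℝ) ^ (-(W / U))) := by
    rw [ht, Real.mul_rpow hC0.le (by positivity), ← Real.rpow_mul hCn0.le,
      ← Real.mul_rpow hC0.le hn0.le]
    congr 2
    field_simp
  have hwc : c1 * (n : ℝ) ^ (-(W / U)) ≤ w := by
    refine le_trans (le_of_eq ?_) hwt
    rw [htW, hc1]
    ring
  have hexp : (n : ℝ) ^ (-(1 + Real.sqrt (2 / 3) + ε)) ≤ (n : ℝ) ^ (-(W / U)) :=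
    Real.rpow_le_rpow_of_exponent_le hn1 (by linarith)
  have hle1 : (n : ℝ) ^ (-(1 + Real.sqrt (2 / 3) + ε)) ≤ 1 := by
    refine Real.rpow_le_one_of_one_le_of_nonpos hn1 ?_
    have := Real.sqrt_nonneg (2 / 3)
    linarith
  have hpos : 0 < (n : ℝ) ^ (-(1 + Real.sqrt (2 / 3) + ε)) := Real.rpow_pos_of_pos hn0 _
  have hw' : min c1 1 * (n : ℝ) ^ (-(1 + Real.sqrt (2 / 3) + ε)) ≤ min w 1 := by
    refine le_min ?_ ?_
    · calc min c1 1 * (n : ℝ) ^ (-(1 + Real.sqrt (2 / 3) + ε)) ≤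
            c1 * (n : ℝ) ^ (-(1 + Real.sqrt (2 / 3) + ε)) :=
            mul_le_mul_of_nonneg_right (min_le_left _ _) hpos.le
        _ ≤ c1 * (n : ℝ) ^ (-(W / U)) := mul_le_mul_of_nonneg_left hexp hc1p.le
        _ ≤ w := hwc
    · calc min c1 1 * (n : ℝ) ^ (-(1 + Real.sqrt (2 / 3) + ε)) ≤
            1 * (n : ℝ) ^ (-(1 + Real.sqrt (2 / 3) + ε)) :=
            mul_le_mul_of_nonneg_right (min_le_right _ _) hpos.le
        _ ≤ 1 := by rw [one_mul]; exact hle1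
  refine ⟨min w 1 / 40, ?_, good_admissible (Good.mono hG (min_le_left w 1)) (by positivity)
    (min_le_right _ _) hnN hk⟩
  linarith

theorem rk_lower (ε : ℝ) (hε : 0 < ε) : ∃ c : ℝ, 0 < c ∧ ∀ n k : ℕ, 1 ≤ n → 2 ≤ k →
    BddAbove {r | Admissible k n r} ∧
    c * (n : ℝ) ^ (-(1 + Real.sqrt (2 / 3) + ε)) ≤ rk k n := by
  obtain ⟨c, hc, h⟩ := exists_admissible ε hε
  refine ⟨c, hc, fun n k hn hk => ⟨bddAbove_admissible hn, ?_⟩⟩
  obtain ⟨r, hr, ha⟩ := h n k hn hk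
  exact hr.trans (le_csSup (bddAbove_admissible hn) ha)

end Pool.Agent.EDW
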