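import Pool.Agent.EDW.Asym

/-!
# Iteration and the final exponent

Put `η = 1 - sqrt (2/3)`, so `3η² - 6η + 1 = 0` and `2 - η = 1 + sqrt (2/3)`.

`claim_iter`: for every `s` there are reals `u, k, U, W` with `Claim u k U W`,
`1 ≤ u`, `0 ≤ k ≤ u/5`, `s + 1 ≤ U`, `W ≤ 3.5 u` and `W ≤ (2 - η) U + 1`.
Induction with a stronger invariant: keep `d = k - η u` and
`W = 2U - K`, `|K - η U - ...|`: concretely the invariant
`2U - W ≥ η U - η (1 - |μ|^(s+1)) / (1 - |μ|)` and `|k - η u| ≤ η |μ|^s` with `μ = (3η-1)/2`,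
`|μ| < 1/4`, works: `u' = (5u-3k)/2`, `k' = (u-k)/2`, `k' - η u' = μ (k - η u)`,
`2U' - W' = 2U - W + k'`, `U' = U + u'`; so `(2U'-W') - η U' = (2U-W) - η U + (k' - η u')`.
Start: `(u,k,U,W) = (1,0,1,2)`, `2U - W = 0`.
The conditions of `claim_step`: `k < u` since `k ≤ u/5`;
`W ≤ 3.5 u < 4.5 u - 2.5 k = 2u' - k'`. Invariance of `k ≤ u/5`: `k'/u' = (u-k)/(5u-3k) ≤ 1/5`.
Invariance of `W ≤ 3.5u`: `W' = W + 4.5u - 2.5k ≤ 8u - 2.5k ≤ 8.75u - 5.25k = 3.5u'` iff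
`2.75 k ≤ .75 u`.

`exists_admissible`: for every `ε > 0` there is `c > 0` such that for all `n ≥ 1`, `k ≥ 2` some
`r ≥ c n^(-(1+sqrt(2/3)+ε))` is admissible. Proof: choose `s` with `1/(s+1) ≤ ε`, take the claim
(constant `C`), and for `n ≥ 1` put `t = C * (C n)^(1/U)` (`t ≥ C`). Then
`N ≥ t^U / C ≥ C^U C n / C ≥ n` and `w ≥ t^(-W)/C = C^(-W-1) (C n)^(-W/U) ≥ c n^(-W/U)`, and
`W/U ≤ 2 - η + 1/U ≤ 1 + sqrt(2/3) + ε` (so `n^(-W/U) ≥ n^(-(1+sqrt(2/3)+ε))`). If `w > 1`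
replace it by... (`Good` forces `w ≤ |X j - X k| ≤ 4`; simplest: `good_admissible` needs `w ≤ 1`,
use monotonicity of `Good` in `w`: `Good.mono`). 
-/

namespace Pool.Agent.EDW

theorem Good.mono {N M : ℕ} {r w w' : ℝ} (h : Good N M r w) (hw : w' ≤ w) : Good N M r w' := by
  obtain ⟨X, Y, lev, hg⟩ := h
  refine ⟨X, Y, lev, ⟨hg.hlev, hg.hX, hg.bX, hg.bY, hg.lip, ?_, ?_⟩⟩
  · intro j k hjk
    exact hw.trans (hg.gap j k hjk)
  · intro j k l h1 h2 h3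
    exact (mul_le_mul_of_nonneg_right hw (abs_nonneg _)).trans (hg.tri j k l h1 h2 h3)

private theorem iter_aux {h : ℝ} (hh : h ^ 2 = 2 / 3) (h0 : 0 ≤ h) (s : ℕ) :
    ∃ u k U W : ℝ, Claim u k U W ∧ 1 ≤ u ∧ 0 ≤ k ∧ k ≤ u / 5 ∧
      (s : ℝ) + 1 ≤ U ∧ W ≤ 7 / 2 * u ∧ 0 ≤ W ∧ |k - (1 - h) * u| ≤ (1 / 4) ^ (s + 1) ∧
      -1 + (1 / 4) ^ (s + 1) ≤ 2 * U - W - (1 - h) * U := by
  have h1 : h ≤ 5 / 6 := by nlinarith
  have h2 : 3 / 4 ≤ h := by nlinarith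
  induction s with
  | zero =>
    refine ⟨1, 0, 1, 2, claim_base, le_rfl, le_rfl, by norm_num, by norm_num, by norm_num,
      by norm_num, ?_, ?_⟩
    · rw [abs_le]
      constructor <;> norm_num <;> linarith
    · norm_num
      linarith
  | succ s ih =>
    obtain ⟨u, k, U, W, hc, hu, hk0, hk, hU, hW, hW0, he, hD⟩ := ih
    refine ⟨u + 3 * ((u - k) / 2), (u - k) / 2, U + (u + 3 * ((u - k) / 2)),
      W + (2 * (u + 3 * ((u - k) / 2)) - (u - k) / 2),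
      claim_step hc hk0 (by linarith) (by linarith), by linarith, by linarith, by linarith,
      ?_, by linarith, by linarith, ?_, ?_⟩
    · push_cast
      linarith
    · have e1 : (u - k) / 2 - (1 - h) * (u + 3 * ((u - k) / 2)) =
          (1 - 3 / 2 * h) * (k - (1 - h) * u) := by
        linear_combination (3 / 2 * u) * hh
      rw [e1, abs_mul, pow_succ, mul_comm]
      have e2 : |1 - 3 / 2 * h| ≤ 1 / 4 := by
        rw [abs_le]
        constructor <;> linarith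
      exact mul_le_mul he e2 (abs_nonneg _) (by positivity)
    · have e1 : (u - k) / 2 - (1 - h) * (u + 3 * ((u - k) / 2)) =
          (1 - 3 / 2 * h) * (k - (1 - h) * u) := by
        linear_combination (3 / 2 * u) * hh
      have e2 : |1 - 3 / 2 * h| ≤ 1 / 4 := by
        rw [abs_le]
        constructor <;> linarith
      have e3 : |(1 - 3 / 2 * h) * (k - (1 - h) * u)| ≤ (1 / 4) * (1 / 4) ^ (s + 1) := by
        rw [abs_mul]
        exact mul_le_mul e2 he (abs_nonneg _) (by norm_num)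
      have e4 := (abs_le.1 e3).1
      have e5 : (1 / 4 : ℝ) ^ (s + 1 + 1) = (1 / 4) * (1 / 4) ^ (s + 1) := by ring
      have e6 : (0 : ℝ) < (1 / 4) ^ (s + 1) := by positivity
      rw [e5]
      have e7 : 2 * (U + (u + 3 * ((u - k) / 2))) -
          (W + (2 * (u + 3 * ((u - k) / 2)) - (u - k) / 2)) -
          (1 - h) * (U + (u + 3 * ((u - k) / 2))) = (2 * U - W - (1 - h) * U) +
          ((u - k) / 2 - (1 - h) * (u + 3 * ((u - k) / 2))) := by ring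
      rw [e7, e1]
      linarith

theorem claim_iter (s : ℕ) : ∃ u k U W : ℝ, Claim u k U W ∧ 1 ≤ u ∧ 0 ≤ k ∧ k ≤ u / 5 ∧
    (s : ℝ) + 1 ≤ U ∧ W ≤ 7 / 2 * u ∧ 0 ≤ W ∧ W ≤ (1 + Real.sqrt (2 / 3)) * U + 1 := by
  have hh : Real.sqrt (2 / 3) ^ 2 = 2 / 3 := Real.sq_sqrt (by norm_num)
  obtain ⟨u, k, U, W, hc, hu, hk0, hk, hU, hW, hW0, -, hD⟩ :=
    iter_aux hh (Real.sqrt_nonneg _) s
  refine ⟨u, k, U, W, hc, hu, hk0, hk, hU, hW, hW0, ?_⟩
  have e6 : (0 : ℝ) < (1 / 4) ^ (s + 1) := by positivity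
  linarith

end Pool.Agent.EDW
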