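import Pool.Agent.EDW.Defs

/-! The recursion step. -/

namespace Pool.Agent.EDW

/-- All three pair distances are dominated. -/
def Dom (c x1 y1 x2 y2 x3 y3 : ℝ) : Prop :=
  c * |x1 - x2| ≤ |det3 x1 y1 x2 y2 x3 y3| ∧ c * |x1 - x3| ≤ |det3 x1 y1 x2 y2 x3 y3| ∧
    c * |x2 - x3| ≤ |det3 x1 y1 x2 y2 x3 y3|

theorem det3_swap12 (x1 y1 x2 y2 x3 y3 : ℝ) :
    det3 x2 y2 x1 y1 x3 y3 = -det3 x1 y1 x2 y2 x3 y3 := by
  unfold det3; ring

theorem det3_swap23 (x1 y1 x2 y2 x3 y3 : ℝ) :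
    det3 x1 y1 x3 y3 x2 y2 = -det3 x1 y1 x2 y2 x3 y3 := by
  unfold det3; ring

theorem Dom.swap12 {c x1 y1 x2 y2 x3 y3 : ℝ} (h : Dom c x1 y1 x2 y2 x3 y3) :
    Dom c x2 y2 x1 y1 x3 y3 := by
  obtain ⟨h1, h2, h3⟩ := h
  unfold Dom
  rw [det3_swap12, abs_neg, abs_sub_comm x2 x1]
  exact ⟨h1, h3, h2⟩

theorem Dom.swap23 {c x1 y1 x2 y2 x3 y3 : ℝ} (h : Dom c x1 y1 x2 y2 x3 y3) :
    Dom c x1 y1 x3 y3 x2 y2 := by
  obtain ⟨h1, h2, h3⟩ := h
  unfold Dom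
  rw [det3_swap23, abs_neg, abs_sub_comm x3 x2]
  exact ⟨h2, h1, h3⟩

theorem abs_xi_le {X1 Y1 X2 Y2 : ℝ} (h : |Y1 - Y2| ≤ 2 * |X1 - X2|) :
    |(Y1 - 3 * X1) - (Y2 - 3 * X2)| ≤ 5 * |X1 - X2| := by
  have e : (Y1 - 3 * X1) - (Y2 - 3 * X2) = (Y1 - Y2) - 3 * (X1 - X2) := by ring
  rw [e]
  calc |(Y1 - Y2) - 3 * (X1 - X2)| ≤ |Y1 - Y2| + |3 * (X1 - X2)| := abs_sub _ _
    _ ≤ 2 * |X1 - X2| + 3 * |X1 - X2| := by
        rw [abs_mul, abs_of_pos (by norm_num : (0:ℝ) < 3)]; linarith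
    _ = 5 * |X1 - X2| := by ring

theorem le_abs_xi {X1 Y1 X2 Y2 : ℝ} (h : |Y1 - Y2| ≤ 2 * |X1 - X2|) :
    |X1 - X2| ≤ |(Y1 - 3 * X1) - (Y2 - 3 * X2)| := by
  have e : (Y1 - 3 * X1) - (Y2 - 3 * X2) = (Y1 - Y2) - 3 * (X1 - X2) := by ring
  rw [e]
  have h1 : |3 * (X1 - X2)| - |Y1 - Y2| ≤ |(Y1 - Y2) - 3 * (X1 - X2)| := by
    rw [abs_sub_comm (Y1 - Y2) (3 * (X1 - X2))]
    exact abs_sub_abs_le_abs_sub (3 * (X1 - X2)) (Y1 - Y2)
  rw [abs_mul, abs_of_pos (by norm_num : (0:ℝ) < 3)] at h1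
  linarith

/-- Three points of the same cluster (the inequality for the outer pair). -/
theorem same_core {ρ w x0 X1 Y1 X2 Y2 X3 Y3 : ℝ} (hρ : 0 < ρ) (hρw : 16 * ρ ≤ w)
    (l12 : |Y1 - Y2| ≤ 2 * |X1 - X2|) (l13 : |Y1 - Y3| ≤ 2 * |X1 - X3|)
    (l23 : |Y2 - Y3| ≤ 2 * |X2 - X3|) (b12 : |X1 - X2| ≤ 4) (b23 : |X2 - X3| ≤ 4)
    (ht : w * |X1 - X3| ≤ |det3 X1 Y1 X2 Y2 X3 Y3|) :
    ρ * w / 10 * |(x0 + ρ * (Y1 - 3 * X1)) - (x0 + ρ * (Y3 - 3 * X3))| ≤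
      |det3 (x0 + ρ * (Y1 - 3 * X1)) ((1 / 256) * (x0 + ρ * (Y1 - 3 * X1)) ^ 2 + ρ * X1)
        (x0 + ρ * (Y2 - 3 * X2)) ((1 / 256) * (x0 + ρ * (Y2 - 3 * X2)) ^ 2 + ρ * X2)
        (x0 + ρ * (Y3 - 3 * X3)) ((1 / 256) * (x0 + ρ * (Y3 - 3 * X3)) ^ 2 + ρ * X3)| := by
  set a := (Y1 - 3 * X1) - (Y2 - 3 * X2) with ha
  set b := (Y1 - 3 * X1) - (Y3 - 3 * X3) with hb
  set c := (Y2 - 3 * X2) - (Y3 - 3 * X3) with hc
  have a5 : |a| ≤ 20 := by have := abs_xi_le l12; rw [← ha] at this; linarith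
  have b5 : |b| ≤ 5 * |X1 - X3| := by have := abs_xi_le l13; rwa [← hb] at this
  have c5 : |c| ≤ 20 := by have := abs_xi_le l23; rw [← hc] at this; linarith
  have hdet : det3 (x0 + ρ * (Y1 - 3 * X1)) ((1 / 256) * (x0 + ρ * (Y1 - 3 * X1)) ^ 2 + ρ * X1)
        (x0 + ρ * (Y2 - 3 * X2)) ((1 / 256) * (x0 + ρ * (Y2 - 3 * X2)) ^ 2 + ρ * X2)
        (x0 + ρ * (Y3 - 3 * X3)) ((1 / 256) * (x0 + ρ * (Y3 - 3 * X3)) ^ 2 + ρ * X3)
      = -((1 / 256) * ρ ^ 3 * (a * b * c) + ρ ^ 2 * det3 X1 Y1 X2 Y2 X3 Y3) := by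
    rw [ha, hb, hc]; unfold det3; ring
  rw [hdet, abs_neg]
  set D := det3 X1 Y1 X2 Y2 X3 Y3
  have h1 : ρ ^ 2 * |D| - (1 / 256) * ρ ^ 3 * (|a| * |b| * |c|) ≤
      |(1 / 256) * ρ ^ 3 * (a * b * c) + ρ ^ 2 * D| := by
    have e1 : ρ ^ 2 * |D| = |ρ ^ 2 * D| := by
      rw [abs_mul, abs_of_pos (by positivity : (0:ℝ) < ρ ^ 2)]
    have e2 : (1 / 256) * ρ ^ 3 * (|a| * |b| * |c|) = |(1 / 256) * ρ ^ 3 * (a * b * c)| := by
      rw [abs_mul, abs_mul (a * b), abs_mul a b, abs_of_pos (by positivity : (0:ℝ) < 1 / 256 * ρ ^ 3)]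
    rw [e1, e2, add_comm]
    have := abs_sub_abs_le_abs_sub (ρ ^ 2 * D) (-((1 / 256) * ρ ^ 3 * (a * b * c)))
    rw [abs_neg, sub_neg_eq_add] at this
    exact this
  have h2 : |a| * |b| * |c| ≤ 20 * (5 * |X1 - X3|) * 20 := by gcongr
  have h3 : (1 / 256) * ρ ^ 3 * (|a| * |b| * |c|) ≤ (1 / 256) * ρ ^ 3 * (20 * (5 * |X1 - X3|) * 20) := by
    gcongr
  have h4 : ρ * (w * |X1 - X3|) ≥ ρ * (16 * ρ * |X1 - X3|) := by gcongr
  have h5 : |(x0 + ρ * (Y1 - 3 * X1)) - (x0 + ρ * (Y3 - 3 * X3))| = ρ * |b| := by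
    rw [← abs_of_pos hρ, ← abs_mul, abs_of_pos hρ]; congr 1; rw [hb]; ring
  rw [h5]
  have hw : 0 < w := by linarith
  have h6 : ρ * w / 10 * (ρ * |b|) ≤ ρ * w / 10 * (ρ * (5 * |X1 - X3|)) := by gcongr
  have h7 : ρ ^ 2 * (w * |X1 - X3|) ≤ ρ ^ 2 * |D| := by gcongr
  have h8 : ρ ^ 2 * (16 * ρ * |X1 - X3|) ≤ ρ ^ 2 * (w * |X1 - X3|) := by gcongr
  have h9 : 0 ≤ ρ ^ 3 * |X1 - X3| := by positivity
  have e3 : (1 / 256) * ρ ^ 3 * (20 * (5 * |X1 - X3|) * 20) = 2000 / 256 * (ρ ^ 3 * |X1 - X3|) := by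
    ring
  have e4 : ρ ^ 2 * (16 * ρ * |X1 - X3|) = 16 * (ρ ^ 3 * |X1 - X3|) := by ring
  have e6 : ρ * w / 10 * (ρ * (5 * |X1 - X3|)) = 1 / 2 * (ρ ^ 2 * (w * |X1 - X3|)) := by ring
  rw [e3] at h3
  rw [e4] at h8
  rw [e6] at h6
  linarith

/-- Two points `1,2` of the same cluster, third point elsewhere. -/
theorem two_core {ρ w x0 X1 Y1 X2 Y2 X3 x3 : ℝ} (hρ : 0 < ρ) (hw : 0 < w)
    (l12 : |Y1 - Y2| ≤ 2 * |X1 - X2|) (gap : w ≤ |X1 - X2|) (b12 : |X1 - X2| ≤ 4)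
    (b13 : |X1 - X3| ≤ 4) (hx3 : |x3| ≤ 2) (hx2 : |x0 + ρ * (Y2 - 3 * X2)| ≤ 2)
    (hfar : 100 * ρ ≤ |(x0 + ρ * (Y1 - 3 * X1)) - x3|) :
    Dom (ρ * w / 10) (x0 + ρ * (Y1 - 3 * X1)) ((1 / 256) * (x0 + ρ * (Y1 - 3 * X1)) ^ 2 + ρ * X1)
        (x0 + ρ * (Y2 - 3 * X2)) ((1 / 256) * (x0 + ρ * (Y2 - 3 * X2)) ^ 2 + ρ * X2)
        x3 ((1 / 256) * x3 ^ 2 + ρ * X3) := by
  set a := (Y1 - 3 * X1) - (Y2 - 3 * X2) with ha
  have a5 : |a| ≤ 5 * |X1 - X2| := by have := abs_xi_le l12; rwa [← ha] at this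
  set x1 := x0 + ρ * (Y1 - 3 * X1) with hx1
  set x2 := x0 + ρ * (Y2 - 3 * X2) with hx2'
  have d12 : x1 - x2 = ρ * a := by rw [hx1, hx2', ha]; ring
  have e12 : |x1 - x2| = ρ * |a| := by rw [d12, abs_mul, abs_of_pos hρ]
  have hdet : det3 x1 ((1 / 256) * x1 ^ 2 + ρ * X1) x2 ((1 / 256) * x2 ^ 2 + ρ * X2)
        x3 ((1 / 256) * x3 ^ 2 + ρ * X3) =
      -((x1 - x3) * (ρ * (X1 - X2)) + ((x1 - x3) * ((1 / 256) * (ρ * a) * (x2 - x3)) -
        (ρ * a) * (ρ * (X1 - X3)))) := by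
    rw [← d12]; unfold det3; ring
  have hL : |x1 - x3| * (ρ * |X1 - X2|) - (|x1 - x3| * ((1 / 256) * (ρ * |a|) * 4) +
      (ρ * |a|) * (ρ * 4)) ≤ |det3 x1 ((1 / 256) * x1 ^ 2 + ρ * X1) x2 ((1 / 256) * x2 ^ 2 + ρ * X2)
        x3 ((1 / 256) * x3 ^ 2 + ρ * X3)| := by
    rw [hdet, abs_neg]
    have h1 : |(x1 - x3) * (ρ * (X1 - X2))| = |x1 - x3| * (ρ * |X1 - X2|) := by
      rw [abs_mul, abs_mul, abs_of_pos hρ]
    have h32 : |x2 - x3| ≤ 4 := by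
      calc |x2 - x3| ≤ |x2| + |x3| := abs_sub _ _
        _ ≤ 4 := by linarith
    have h2 : |(x1 - x3) * ((1 / 256) * (ρ * a) * (x2 - x3)) - (ρ * a) * (ρ * (X1 - X3))| ≤
        |x1 - x3| * ((1 / 256) * (ρ * |a|) * 4) + (ρ * |a|) * (ρ * 4) := by
      refine (abs_sub _ _).trans ?_
      have h3 : |(x1 - x3) * ((1 / 256) * (ρ * a) * (x2 - x3))| =
          |x1 - x3| * ((1 / 256) * (ρ * |a|) * |x2 - x3|) := by
        rw [abs_mul, abs_mul, abs_mul, abs_mul, abs_of_pos hρ,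
          abs_of_pos (by norm_num : (0:ℝ) < 1 / 256)]
      have h4 : |(ρ * a) * (ρ * (X1 - X3))| = (ρ * |a|) * (ρ * |X1 - X3|) := by
        rw [abs_mul, abs_mul, abs_mul, abs_of_pos hρ]
      rw [h3, h4]
      gcongr
    have h5 := abs_sub_abs_le_abs_sub ((x1 - x3) * (ρ * (X1 - X2)))
      (-((x1 - x3) * ((1 / 256) * (ρ * a) * (x2 - x3)) - (ρ * a) * (ρ * (X1 - X3))))
    rw [abs_neg, sub_neg_eq_add, h1] at h5
    linarith
  set D := det3 x1 ((1 / 256) * x1 ^ 2 + ρ * X1) x2 ((1 / 256) * x2 ^ 2 + ρ * X2)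
        x3 ((1 / 256) * x3 ^ 2 + ρ * X3)
  have t1 : |x1 - x3| * ((1 / 256) * (ρ * |a|) * 4) ≤
      |x1 - x3| * ((1 / 256) * (ρ * (5 * |X1 - X2|)) * 4) := by gcongr
  have t2 : (ρ * |a|) * (ρ * 4) ≤ (ρ * (5 * |X1 - X2|)) * (|x1 - x3| / 25) := by
    have : ρ * 4 ≤ |x1 - x3| / 25 := by linarith
    gcongr
  have hD : |x1 - x3| * (ρ * |X1 - X2|) / 2 ≤ |D| := by
    have h0 : 0 ≤ |x1 - x3| * (ρ * |X1 - X2|) := by positivity
    have g1 : |x1 - x3| * ((1 / 256) * (ρ * (5 * |X1 - X2|)) * 4) =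
        20 / 256 * (|x1 - x3| * (ρ * |X1 - X2|)) := by ring
    have g2 : (ρ * (5 * |X1 - X2|)) * (|x1 - x3| / 25) =
        1 / 5 * (|x1 - x3| * (ρ * |X1 - X2|)) := by ring
    rw [g1] at t1
    rw [g2] at t2
    linarith
  have hD2 : |x1 - x3| * (ρ * w) / 2 ≤ |D| := by
    have : |x1 - x3| * (ρ * w) ≤ |x1 - x3| * (ρ * |X1 - X2|) := by gcongr
    linarith
  have h12 : |x1 - x2| ≤ |x1 - x3| := by
    rw [e12]
    have : ρ * |a| ≤ ρ * (5 * 4) := by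
      have : |a| ≤ 5 * 4 := by linarith
      gcongr
    linarith
  have h23 : |x2 - x3| ≤ 2 * |x1 - x3| := by
    have : |x2 - x3| ≤ |x1 - x2| + |x1 - x3| := by
      have e : x2 - x3 = -(x1 - x2) + (x1 - x3) := by ring
      rw [e]
      refine (abs_add_le _ _).trans ?_
      rw [abs_neg]
    linarith
  have hc : 0 < ρ * w / 10 := by positivity
  refine ⟨?_, ?_, ?_⟩
  · have : ρ * w / 10 * |x1 - x2| ≤ ρ * w / 10 * |x1 - x3| := by gcongr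
    have h0 : 0 ≤ |x1 - x3| * (ρ * w) := by positivity
    have e : ρ * w / 10 * |x1 - x3| = 1 / 10 * (|x1 - x3| * (ρ * w)) := by ring
    linarith
  · have h0 : 0 ≤ |x1 - x3| * (ρ * w) := by positivity
    have e : ρ * w / 10 * |x1 - x3| = 1 / 10 * (|x1 - x3| * (ρ * w)) := by ring
    linarith
  · have : ρ * w / 10 * |x2 - x3| ≤ ρ * w / 10 * (2 * |x1 - x3|) := by gcongr
    have h0 : 0 ≤ |x1 - x3| * (ρ * w) := by positivity
    have e : ρ * w / 10 * (2 * |x1 - x3|) = 1 / 5 * (|x1 - x3| * (ρ * w)) := by ring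
    linarith


theorem abs_H {M l1 l2 : ℕ} {H1 H2 s : ℝ} (hs : 2 * s ≤ 1) (h1 : |H1 - l1| ≤ s)
    (h2 : |H2 - l2| ≤ s) (hl1 : l1 < M) (hl2 : l2 < M) : |H2 - H1| ≤ M := by
  rw [abs_le] at h1 h2 ⊢
  have a1 : (l1 : ℝ) + 1 ≤ M := by exact_mod_cast hl1
  have a2 : (l2 : ℝ) + 1 ≤ M := by exact_mod_cast hl2
  have b1 : (0 : ℝ) ≤ l1 := Nat.cast_nonneg _
  have b2 : (0 : ℝ) ≤ l2 := Nat.cast_nonneg _
  constructor <;> linarith [h1.1, h1.2, h2.1, h2.2]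

/-- The integrality argument. -/
theorem num_ne {p q a0 b0 : ℕ} (m : ℤ) (hq : q.Prime) (hqp : ¬ q ∣ p) (ha0 : 1 ≤ a0) (hb0 : 1 ≤ b0)
    (hlt : a0 + b0 < q) : (1 : ℝ) ≤ |(p : ℝ) * (a0 * b0 * (a0 + b0)) + q * (m : ℝ)| := by
  have hz : (p : ℤ) * (a0 * b0 * (a0 + b0)) + q * m ≠ 0 := by
    intro h0
    have hd : (q : ℤ) ∣ (p : ℤ) * (a0 * b0 * (a0 + b0)) := by
      have : (p : ℤ) * (a0 * b0 * (a0 + b0)) = q * (-m) := by linarith
      rw [this]; exact dvd_mul_right _ _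
    have hd' : q ∣ p * (a0 * b0 * (a0 + b0)) := by exact_mod_cast hd
    rcases (hq.dvd_mul).1 hd' with h | h
    · exact hqp h
    · rcases (hq.dvd_mul).1 h with h | h
      · rcases (hq.dvd_mul).1 h with h | h
        · have := Nat.le_of_dvd (by omega) h; omega
        · have := Nat.le_of_dvd (by omega) h; omega
      · have := Nat.le_of_dvd (by omega) h; omega
  have h1 : (1 : ℤ) ≤ |(p : ℤ) * (a0 * b0 * (a0 + b0)) + q * m| := Int.one_le_abs hz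
  have h2 : ((1 : ℤ) : ℝ) ≤ ((|(p : ℤ) * (a0 * b0 * (a0 + b0)) + q * m| : ℤ) : ℝ) := by
    exact_mod_cast h1
  push_cast at h2
  exact h2

theorem near_far {M p q a0 b0 l1 l2 l3 : ℕ} {a b H1 H2 H3 r w ψ : ℝ}
    (hM : 1 ≤ M) (hq : q.Prime) (hqp : ¬ q ∣ p) (hp : 6 * M ≤ p)
    (ha0 : 1 ≤ a0) (hb0 : 1 ≤ b0)
    (hr : 8 * (M : ℝ) * r * (q : ℝ) ^ 2 ≤ 1) (hw : 0 < w) (hwr : w ≤ r)
    (hψ : 16 * (p : ℝ) * q ^ 2 * ψ = 1)
    (ha : |a - a0| ≤ ψ) (hb : |b - b0| ≤ ψ)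
    (h1 : |H1 - l1| ≤ M * r) (h2 : |H2 - l2| ≤ M * r) (h3 : |H3 - l3| ≤ M * r)
    (hl1 : l1 < M) (hl2 : l2 < M) (hl3 : l3 < M) :
    (M : ℝ) * w / 10 * (a + b) ≤
      |(p : ℝ) / q * (a * b * (a + b)) + a * (H3 - H2) - b * (H2 - H1)| := by
  have M1 : (1 : ℝ) ≤ M := by exact_mod_cast hM
  have q2 : (2 : ℝ) ≤ q := by exact_mod_cast hq.two_le
  have p6 : 6 * (M : ℝ) ≤ p := by exact_mod_cast hp
  have a1 : (1 : ℝ) ≤ a0 := by exact_mod_cast ha0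
  have b1 : (1 : ℝ) ≤ b0 := by exact_mod_cast hb0
  have qq : (4 : ℝ) ≤ (q : ℝ) ^ 2 := by
    have : (2 : ℝ) ^ 2 ≤ (q : ℝ) ^ 2 := by gcongr
    linarith
  have q0 : (0 : ℝ) < q := by linarith
  have p0 : (0 : ℝ) < p := by linarith
  have hψ' : ψ = 1 / (16 * (p : ℝ) * q ^ 2) := by
    rw [eq_div_iff (by positivity)]; linarith
  have ψ0 : 0 < ψ := by rw [hψ']; positivity
  have pq : (24 : ℝ) ≤ p * q ^ 2 := by
    have : (6 : ℝ) * 4 ≤ p * q ^ 2 := by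
      have : (6 : ℝ) ≤ p := by linarith
      gcongr
    linarith
  have ψ1 : ψ ≤ 1 / 100 := by
    rw [hψ']
    apply one_div_le_one_div_of_le (by norm_num)
    linarith
  have r0 : 0 < r := lt_of_lt_of_le hw hwr
  have Mr0 : 0 < (M : ℝ) * r := by positivity
  have Mr : 32 * ((M : ℝ) * r) ≤ 1 := by
    have : (M : ℝ) * r * 4 ≤ M * r * (q : ℝ) ^ 2 := by gcongr
    linarith
  have hs : 2 * ((M : ℝ) * r) ≤ 1 := by linarith
  have H21 := abs_H hs h1 h2 hl1 hl2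
  have H32 := abs_H hs h2 h3 hl2 hl3
  have ha' := abs_le.1 ha
  have hb' := abs_le.1 hb
  have aL : 9 / 10 * (a0 : ℝ) ≤ a := by linarith [ha'.1]
  have aU : a ≤ 101 / 100 * (a0 : ℝ) := by linarith [ha'.2]
  have bL : 9 / 10 * (b0 : ℝ) ≤ b := by linarith [hb'.1]
  have bU : b ≤ 101 / 100 * (b0 : ℝ) := by linarith [hb'.2]
  have a0' : 0 < a := by linarith
  have b0' : 0 < b := by linarith
  have hw1 : w ≤ 1 := by
    have : 1 * r ≤ M * r := by gcongr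
    linarith
  have Mw : (M : ℝ) * w ≤ M * r := by gcongr
  by_cases hfar : q ≤ a0 + b0
  · -- far case
    have hab : (q : ℝ) / 2 ≤ a0 * b0 := by
      have h0 : (q : ℝ) ≤ a0 + b0 := by exact_mod_cast hfar
      have h1 : 0 ≤ ((a0 : ℝ) - 1) * (b0 - 1) := mul_nonneg (by linarith) (by linarith)
      have h2 : ((a0 : ℝ) - 1) * (b0 - 1) = a0 * b0 - a0 - b0 + 1 := by ring
      rw [h2] at h1
      linarith
    have hab2 : 81 / 100 * ((a0 : ℝ) * b0) ≤ a * b := by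
      have : (9 / 10 * (a0 : ℝ)) * (9 / 10 * b0) ≤ a * b := by gcongr
      linarith
    have hab3 : 81 / 200 * (q : ℝ) ≤ a * b := by linarith
    have hpq : (2 : ℝ) * M ≤ p / q * (a * b) := by
      have : (p : ℝ) / q * (81 / 200 * q) ≤ p / q * (a * b) := by gcongr
      have e : (p : ℝ) / q * (81 / 200 * q) = 81 / 200 * p := by field_simp
      rw [e] at this
      linarith
    have hmain : (2 : ℝ) * M * (a + b) ≤ p / q * (a * b * (a + b)) := by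
      have : (2 : ℝ) * M * (a + b) ≤ p / q * (a * b) * (a + b) := by gcongr
      calc (2 : ℝ) * M * (a + b) ≤ p / q * (a * b) * (a + b) := this
        _ = _ := by ring
    have k1 : a * (H3 - H2) ≥ -(a * M) := by
      have : a * -(M : ℝ) ≤ a * (H3 - H2) := by
        have : -(M : ℝ) ≤ H3 - H2 := (abs_le.1 H32).1
        gcongr
      linarith
    have k2 : b * (H2 - H1) ≤ b * M := by
      have : H2 - H1 ≤ M := (abs_le.1 H21).2
      gcongr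
    refine le_trans ?_ (le_abs_self _)
    have k3 : (M : ℝ) * w / 10 * (a + b) ≤ M * (a + b) := by
      have : (M : ℝ) * w / 10 ≤ M := by
        have : (M : ℝ) * w ≤ M * 1 := by gcongr
        linarith
      gcongr
    have e : (2 : ℝ) * M * (a + b) = M * (a + b) + a * M + b * M := by ring
    linarith
  · -- near case
    have hlt : a0 + b0 < q := by omega
    have hlt' : (a0 : ℝ) + b0 + 1 ≤ q := by exact_mod_cast hlt
    have hB := num_ne ((a0 : ℤ) * ((l3 : ℤ) - l2) - b0 * ((l2 : ℤ) - l1)) hq hqp ha0 hb0 hlt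
    push_cast at hB
    set T := (p : ℝ) / q * (a * b * (a + b)) + a * (H3 - H2) - b * (H2 - H1) with hT
    set B := (p : ℝ) / q * ((a0 : ℝ) * b0 * (a0 + b0)) + a0 * ((l3 : ℝ) - l2) - b0 * ((l2 : ℝ) - l1)
      with hBdef
    have hBq : 1 / (q : ℝ) ≤ |B| := by
      have e : (p : ℝ) * (a0 * b0 * (a0 + b0)) + q * (a0 * ((l3 : ℝ) - l2) - b0 * ((l2 : ℝ) - l1)) =
          q * B := by
        have e' : (q : ℝ) * (p / q * (a0 * b0 * (a0 + b0))) = p * (a0 * b0 * (a0 + b0)) := by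
          field_simp
        rw [hBdef]
        linear_combination (-1 : ℝ) * e'
      rw [e, abs_mul, abs_of_pos q0] at hB
      rw [div_le_iff₀ q0]; linarith
    have c1 : |a * b * (a + b) - (a0 : ℝ) * b0 * (a0 + b0)| ≤ 2 * ψ * q ^ 2 := by
      have e : a * b * (a + b) - (a0 : ℝ) * b0 * (a0 + b0) =
          (a - a0) * ((a + a0) * b + b ^ 2) + (b - b0) * (a0 ^ 2 + a0 * (b + b0)) := by ring
      rw [e]
      refine (abs_add_le _ _).trans ?_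
      rw [abs_mul, abs_mul, abs_of_pos (by positivity : 0 < (a + a0) * b + b ^ 2),
        abs_of_pos (by positivity : 0 < (a0 : ℝ) ^ 2 + a0 * (b + b0))]
      have d1 : |a - a0| * ((a + a0) * b + b ^ 2) ≤
          ψ * ((101 / 100 * a0 + a0) * (101 / 100 * b0) + (101 / 100 * b0) ^ 2) := by gcongr
      have d2 : |b - b0| * ((a0 : ℝ) ^ 2 + a0 * (b + b0)) ≤
          ψ * ((a0 : ℝ) ^ 2 + a0 * (101 / 100 * b0 + b0)) := by gcongr
      have d3 : ((101 / 100 * (a0 : ℝ) + a0) * (101 / 100 * b0) + (101 / 100 * b0) ^ 2) +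
          ((a0 : ℝ) ^ 2 + a0 * (101 / 100 * b0 + b0)) ≤ 2 * q ^ 2 := by
        have e1 : ((a0 : ℝ) + b0) ^ 2 ≤ q ^ 2 := by gcongr; linarith
        have e2 : ((101 / 100 * (a0 : ℝ) + a0) * (101 / 100 * b0) + (101 / 100 * b0) ^ 2) +
          ((a0 : ℝ) ^ 2 + a0 * (101 / 100 * b0 + b0)) =
          a0 ^ 2 + (40401 / 10000) * (a0 * b0) + (10201 / 10000) * b0 ^ 2 := by ring
        have e3 : 0 ≤ ((a0 : ℝ) - b0) ^ 2 := sq_nonneg _
        have e4 : ((a0 : ℝ) - b0) ^ 2 = a0 ^ 2 - 2 * (a0 * b0) + b0 ^ 2 := by ring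
        have e5 : ((a0 : ℝ) + b0) ^ 2 = a0 ^ 2 + 2 * (a0 * b0) + b0 ^ 2 := by ring
        have e6 : 0 ≤ (a0 : ℝ) * b0 := by positivity
        have e7 : 0 ≤ (a0 : ℝ) ^ 2 := by positivity
        have e8 : 0 ≤ (b0 : ℝ) ^ 2 := by positivity
        rw [e2]
        rw [e4] at e3
        rw [e5] at e1
        linarith
      have d4 := mul_le_mul_of_nonneg_left d3 ψ0.le
      linarith
    have c2 : |a * (H3 - H2) - a0 * ((l3 : ℝ) - l2)| ≤ ψ * M + a0 * (2 * (M * r)) := by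
      have e : a * (H3 - H2) - a0 * ((l3 : ℝ) - l2) =
          (a - a0) * (H3 - H2) + a0 * ((H3 - l3) - (H2 - l2)) := by ring
      rw [e]
      refine (abs_add_le _ _).trans ?_
      rw [abs_mul, abs_mul, abs_of_pos (by linarith : (0 : ℝ) < a0)]
      have f1 : |H3 - ↑l3 - (H2 - ↑l2)| ≤ 2 * (M * r) := by
        refine (abs_sub _ _).trans ?_
        linarith
      gcongr
    have c3 : |b * (H2 - H1) - b0 * ((l2 : ℝ) - l1)| ≤ ψ * M + b0 * (2 * (M * r)) := by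
      have e : b * (H2 - H1) - b0 * ((l2 : ℝ) - l1) =
          (b - b0) * (H2 - H1) + b0 * ((H2 - l2) - (H1 - l1)) := by ring
      rw [e]
      refine (abs_add_le _ _).trans ?_
      rw [abs_mul, abs_mul, abs_of_pos (by linarith : (0 : ℝ) < b0)]
      have f1 : |H2 - ↑l2 - (H1 - ↑l1)| ≤ 2 * (M * r) := by
        refine (abs_sub _ _).trans ?_
        linarith
      gcongr
    have hTB : |T - B| ≤ 1 / (2 * q) := by
      have e : T - B = (p : ℝ) / q * (a * b * (a + b) - (a0 : ℝ) * b0 * (a0 + b0)) +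
          (a * (H3 - H2) - a0 * ((l3 : ℝ) - l2)) + -(b * (H2 - H1) - b0 * ((l2 : ℝ) - l1)) := by
        rw [hT, hBdef]; ring
      have g1 : |T - B| ≤ (p : ℝ) / q * (2 * ψ * q ^ 2) + (ψ * M + a0 * (2 * (M * r))) +
          (ψ * M + b0 * (2 * (M * r))) := by
        rw [e]
        refine (abs_add_le _ _).trans ?_
        rw [abs_neg]
        refine add_le_add ((abs_add_le _ _).trans ?_) c3
        refine add_le_add ?_ c2
        rw [abs_mul, abs_of_pos (by positivity : (0 : ℝ) < p / q)]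
        gcongr
      have g2 : (p : ℝ) / q * (2 * ψ * q ^ 2) = 1 / (8 * q) := by
        rw [hψ']; field_simp; ring
      have g3 : 2 * (ψ * M) ≤ 1 / (48 * q) := by
        rw [hψ']
        rw [le_div_iff₀ (by positivity)]
        have : 2 * (1 / (16 * (p : ℝ) * q ^ 2) * M) * (48 * q) = (6 * M) / p / q := by
          field_simp; ring
        rw [this, div_div, div_le_one (by positivity)]
        have : (p : ℝ) * 1 ≤ p * q := by gcongr; linarith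
        linarith
      have g4 : ((a0 : ℝ) + b0) * (2 * (M * r)) ≤ 1 / (4 * q) := by
        rw [le_div_iff₀ (by positivity)]
        have : ((a0 : ℝ) + b0) * (2 * (M * r)) * (4 * q) ≤ q * (2 * (M * r)) * (4 * q) := by
          gcongr; linarith
        have e : (q : ℝ) * (2 * (M * r)) * (4 * q) = 8 * M * r * q ^ 2 := by ring
        rw [e] at this
        linarith
      have g5 : 1 / (8 * (q : ℝ)) + 1 / (48 * q) + 1 / (4 * q) ≤ 1 / (2 * q) := by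
        have : 1 / (8 * (q : ℝ)) + 1 / (48 * q) + 1 / (4 * q) = (19 / 48) * (1 / q) := by
          field_simp; ring
        rw [this]
        have : 1 / (2 * (q : ℝ)) = (1 / 2) * (1 / q) := by field_simp
        rw [this]
        have : 0 < 1 / (q : ℝ) := by positivity
        linarith
      linarith
    have hTlow : 1 / (2 * (q : ℝ)) ≤ |T| := by
      have k1 : |B| - |T - B| ≤ |T| := by
        have := abs_sub_abs_le_abs_sub B (B - T)
        rw [abs_sub_comm B T] at this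
        have e : B - (B - T) = T := by ring
        rw [e] at this
        exact this
      have e : 1 / (2 * (q : ℝ)) = 1 / q - 1 / (2 * q) := by field_simp; ring
      rw [e]; linarith
    refine le_trans ?_ hTlow
    have hab : a + b ≤ q := by linarith [ha'.2, hb'.2]
    rw [le_div_iff₀ (by positivity)]
    have s1 : (M : ℝ) * w / 10 * (a + b) * (2 * q) ≤ M * r / 10 * q * (2 * q) := by gcongr
    have e : (M : ℝ) * r / 10 * q * (2 * q) = 1 / 40 * (8 * M * r * q ^ 2) := by ring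
    rw [e] at s1
    linarith


/-- Three points of three different clusters. -/
theorem three_core {M p q M' : ℕ} {i1 i2 i3 l1 l2 l3 : ℕ} {ρ r w ξ1 ξ2 ξ3 X1 X2 X3 : ℝ}
    (hM : 1 ≤ M) (hq : q.Prime) (hqp : ¬ q ∣ p) (hp : 6 * M ≤ p)
    (hr : 8 * (M : ℝ) * r * (q : ℝ) ^ 2 ≤ 1) (hw : 0 < w) (hwr : w ≤ r)
    (hM' : M' = M * q ^ 3) (hρ : ρ = (M : ℝ) * q / (256 * p * (M' : ℝ) ^ 2))
    (h12 : i1 < i2) (h23 : i2 < i3)
    (e1 : |ξ1| ≤ 8) (e2 : |ξ2| ≤ 8) (e3 : |ξ3| ≤ 8)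
    (hX1 : |X1 - (l1 : ℝ) / M| ≤ r) (hX2 : |X2 - (l2 : ℝ) / M| ≤ r)
    (hX3 : |X3 - (l3 : ℝ) / M| ≤ r)
    (hl1 : l1 < M) (hl2 : l2 < M) (hl3 : l3 < M) :
    Dom (ρ * w / 10) ((i1 : ℝ) / M' + ρ * ξ1) ((1 / 256) * ((i1 : ℝ) / M' + ρ * ξ1) ^ 2 + ρ * X1)
      ((i2 : ℝ) / M' + ρ * ξ2) ((1 / 256) * ((i2 : ℝ) / M' + ρ * ξ2) ^ 2 + ρ * X2)
      ((i3 : ℝ) / M' + ρ * ξ3) ((1 / 256) * ((i3 : ℝ) / M' + ρ * ξ3) ^ 2 + ρ * X3) := by
  have M1 : (1 : ℝ) ≤ M := by exact_mod_cast hM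
  have M0 : (0 : ℝ) < M := by linarith
  have q2 : (2 : ℝ) ≤ q := by exact_mod_cast hq.two_le
  have q0 : (0 : ℝ) < q := by linarith
  have p6 : 6 * (M : ℝ) ≤ p := by exact_mod_cast hp
  have p0 : (0 : ℝ) < p := by linarith
  have M'r : (M' : ℝ) = M * q ^ 3 := by rw [hM']; push_cast; ring
  have M'0 : (0 : ℝ) < M' := by rw [M'r]; positivity
  have ρ0 : 0 < ρ := by rw [hρ]; positivity
  have hψ : 16 * (p : ℝ) * q ^ 2 * (16 * ρ * M') = 1 := by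
    rw [hρ, M'r]; field_simp; ring
  have hK : ρ / (M' * M) * (p / q) = 1 / (256 * (M' : ℝ) ^ 3) := by
    rw [hρ]; field_simp
  obtain ⟨a0, rfl⟩ := Nat.exists_eq_add_of_lt h12
  obtain ⟨b0, rfl⟩ := Nat.exists_eq_add_of_lt h23
  set x1 := (i1 : ℝ) / M' + ρ * ξ1 with hx1
  set x2 := ((i1 + a0 + 1 : ℕ) : ℝ) / M' + ρ * ξ2 with hx2
  set x3 := ((i1 + a0 + 1 + b0 + 1 : ℕ) : ℝ) / M' + ρ * ξ3 with hx3
  have ha : x2 - x1 = (((a0 + 1 : ℕ) : ℝ) + M' * ρ * (ξ2 - ξ1)) / M' := by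
    rw [hx1, hx2]; push_cast; field_simp; ring
  have hb : x3 - x2 = (((b0 + 1 : ℕ) : ℝ) + M' * ρ * (ξ3 - ξ2)) / M' := by
    rw [hx3, hx2]; push_cast; field_simp; ring
  set a := (((a0 + 1 : ℕ) : ℝ) + M' * ρ * (ξ2 - ξ1)) with hadef
  set b := (((b0 + 1 : ℕ) : ℝ) + M' * ρ * (ξ3 - ξ2)) with hbdef
  have hψa : |a - ((a0 + 1 : ℕ) : ℝ)| ≤ 16 * ρ * M' := by
    have e : a - ((a0 + 1 : ℕ) : ℝ) = M' * ρ * (ξ2 - ξ1) := by rw [hadef]; ring
    rw [e, abs_mul, abs_of_pos (by positivity : (0:ℝ) < M' * ρ)]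
    have : |ξ2 - ξ1| ≤ 16 := by
      refine (abs_sub _ _).trans ?_
      linarith
    calc (M' : ℝ) * ρ * |ξ2 - ξ1| ≤ M' * ρ * 16 := by gcongr
      _ = _ := by ring
  have hψb : |b - ((b0 + 1 : ℕ) : ℝ)| ≤ 16 * ρ * M' := by
    have e : b - ((b0 + 1 : ℕ) : ℝ) = M' * ρ * (ξ3 - ξ2) := by rw [hbdef]; ring
    rw [e, abs_mul, abs_of_pos (by positivity : (0:ℝ) < M' * ρ)]
    have : |ξ3 - ξ2| ≤ 16 := by
      refine (abs_sub _ _).trans ?_
      linarith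
    calc (M' : ℝ) * ρ * |ξ3 - ξ2| ≤ M' * ρ * 16 := by gcongr
      _ = _ := by ring
  have hH : ∀ {X : ℝ} {l : ℕ}, |X - (l : ℝ) / M| ≤ r → |M * X - l| ≤ M * r := by
    intro X l hXl
    have e : (M : ℝ) * X - l = M * (X - l / M) := by field_simp
    rw [e, abs_mul, abs_of_pos M0]
    gcongr
  have hnf := near_far hM hq hqp hp (Nat.succ_le_succ (Nat.zero_le a0))
    (Nat.succ_le_succ (Nat.zero_le b0)) hr hw hwr hψ hψa hψb (hH hX1) (hH hX2) (hH hX3)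
    hl1 hl2 hl3
  have hdet : det3 x1 ((1 / 256) * x1 ^ 2 + ρ * X1) x2 ((1 / 256) * x2 ^ 2 + ρ * X2)
      x3 ((1 / 256) * x3 ^ 2 + ρ * X3) = ρ / (M' * M) *
      ((p : ℝ) / q * (a * b * (a + b)) + a * (M * X3 - M * X2) - b * (M * X2 - M * X1)) := by
    have s1 : det3 x1 ((1 / 256) * x1 ^ 2 + ρ * X1) x2 ((1 / 256) * x2 ^ 2 + ρ * X2)
      x3 ((1 / 256) * x3 ^ 2 + ρ * X3) = (1 / 256) * ((x2 - x1) * (x3 - x2) *
        ((x2 - x1) + (x3 - x2))) + ρ * ((x2 - x1) * (X3 - X2) - (x3 - x2) * (X2 - X1)) := by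
      unfold det3; ring
    rw [s1, ha, hb]
    have s2 : (1 / 256) * (a / M' * (b / M') * (a / M' + b / M')) =
        (1 / (256 * (M' : ℝ) ^ 3)) * (a * b * (a + b)) := by field_simp
    have s3 : ρ * (a / M' * (X3 - X2) - b / M' * (X2 - X1)) =
        ρ / (M' * M) * (a * (M * X3 - M * X2) - b * (M * X2 - M * X1)) := by
      field_simp
    rw [s2, s3, ← hK]; ring
  set D := det3 x1 ((1 / 256) * x1 ^ 2 + ρ * X1) x2 ((1 / 256) * x2 ^ 2 + ρ * X2)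
      x3 ((1 / 256) * x3 ^ 2 + ρ * X3) with hD
  have hmain : ρ * w / 10 * (x3 - x1) ≤ |D| := by
    rw [hdet, abs_mul, abs_of_pos (by positivity : (0:ℝ) < ρ / (M' * M))]
    calc ρ * w / 10 * (x3 - x1) = ρ / (M' * M) * ((M : ℝ) * w / 10 * (a + b)) := by
          have : x3 - x1 = (x2 - x1) + (x3 - x2) := by ring
          rw [this, ha, hb]; field_simp
      _ ≤ _ := by gcongr
  have hρM : 16 * ρ * M' ≤ 1 := by
    have : 16 * (p : ℝ) * q ^ 2 * (16 * ρ * M') ≥ 1 * (16 * ρ * M') := by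
      have h4 : (2 : ℝ) ^ 2 ≤ (q : ℝ) ^ 2 := by gcongr
      have h5 : (1 : ℝ) * 1 ≤ 16 * p * q ^ 2 := by
        have : (1:ℝ) ≤ 16 * p := by linarith
        have : (1:ℝ) ≤ q ^ 2 := by linarith
        gcongr
      gcongr
      linarith
    linarith
  have a00 : 0 ≤ a := by
    have := (abs_le.1 hψa).1
    push_cast at this
    have h0 : (0:ℝ) ≤ a0 := Nat.cast_nonneg _
    linarith
  have b00 : 0 ≤ b := by
    have := (abs_le.1 hψb).1
    push_cast at this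
    have h0 : (0:ℝ) ≤ b0 := Nat.cast_nonneg _
    linarith
  have x12 : 0 ≤ x2 - x1 := by rw [ha]; positivity
  have x23 : 0 ≤ x3 - x2 := by rw [hb]; positivity
  have hc : 0 ≤ ρ * w / 10 := by positivity
  refine ⟨?_, ?_, ?_⟩
  · rw [abs_sub_comm, abs_of_nonneg x12]
    have : ρ * w / 10 * (x2 - x1) ≤ ρ * w / 10 * (x3 - x1) := by gcongr; linarith
    linarith
  · rw [abs_sub_comm, abs_of_nonneg (by linarith : 0 ≤ x3 - x1)]
    exact hmain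
  · rw [abs_sub_comm, abs_of_nonneg x23]
    have : ρ * w / 10 * (x3 - x2) ≤ ρ * w / 10 * (x3 - x1) := by gcongr; linarith
    linarith

theorem one_le_abs_cast_sub {i j : ℕ} (h : i ≠ j) : (1 : ℝ) ≤ |(i : ℝ) - j| := by
  have h0 : (i : ℤ) - j ≠ 0 := by
    intro h1
    apply h
    have : (i : ℤ) = j := by linarith
    exact_mod_cast this
  have h1 : (1 : ℤ) ≤ |(i : ℤ) - j| := Int.one_le_abs h0
  exact_mod_cast h1

theorem step {ι : Type} {M : ℕ} {r w : ℝ} {X Y : ι → ℝ} {lev : ι → ℕ}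
    (h : IsGood M r w X Y lev) (hM : 1 ≤ M) (hw : 0 < w) (hwr : w ≤ r)
    {q p : ℕ} (hq : q.Prime) (hqp : ¬ q ∣ p) (hp : 6 * M ≤ p)
    (hr : 8 * (M : ℝ) * r * (q : ℝ) ^ 2 ≤ 1)
    {M' : ℕ} (hM' : M' = M * q ^ 3) {ρ : ℝ}
    (hρ : ρ = (M : ℝ) * q / (256 * p * (M' : ℝ) ^ 2)) (hρw : 16 * ρ ≤ w) :
    IsGood (ι := Fin M' × ι) M' (8 * ρ) (ρ * w / 10)
      (fun a => ((a.1 : ℕ) : ℝ) / M' + ρ * (Y a.2 - 3 * X a.2))
      (fun a => (1 / 256) * (((a.1 : ℕ) : ℝ) / M' + ρ * (Y a.2 - 3 * X a.2)) ^ 2 + ρ * X a.2)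
      (fun a => (a.1 : ℕ)) := by
  have M1 : (1 : ℝ) ≤ M := by exact_mod_cast hM
  have M0 : (0 : ℝ) < M := by linarith
  have q2 : (2 : ℝ) ≤ q := by exact_mod_cast hq.two_le
  have q0 : (0 : ℝ) < q := by linarith
  have p6 : 6 * (M : ℝ) ≤ p := by exact_mod_cast hp
  have p0 : (0 : ℝ) < p := by linarith
  have M'r : (M' : ℝ) = M * q ^ 3 := by rw [hM']; push_cast; ring
  have h4 : (2 : ℝ) ^ 2 ≤ (q : ℝ) ^ 2 := by gcongr
  have h8 : (2 : ℝ) ^ 3 ≤ (q : ℝ) ^ 3 := by gcongr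
  have M'1 : (1 : ℝ) ≤ M' := by
    rw [M'r]
    have : (1 : ℝ) * 1 ≤ M * q ^ 3 := by
      have : (1 : ℝ) ≤ q ^ 3 := by linarith
      gcongr
    linarith
  have M'0 : (0 : ℝ) < M' := by linarith
  have ρ0 : 0 < ρ := by rw [hρ]; positivity
  have hψ : 256 * (p : ℝ) * q ^ 2 * (ρ * M') = 1 := by
    rw [hρ, M'r]; field_simp
  have pq : (24 : ℝ) ≤ p * q ^ 2 := by
    have : (6 : ℝ) * 4 ≤ p * q ^ 2 := by
      have : (6 : ℝ) ≤ p := by linarith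
      have : (4 : ℝ) ≤ q ^ 2 := by linarith
      gcongr
    linarith
  have hρM : 6144 * (ρ * M') ≤ 1 := by
    have : (24 : ℝ) * (ρ * M') ≤ p * q ^ 2 * (ρ * M') := by gcongr
    linarith
  have hρ1 : 6144 * ρ ≤ 1 := by
    have : ρ * 1 ≤ ρ * M' := by gcongr
    linarith
  have hw1 : w ≤ 1 := by
    have Mr0 : 0 < (M : ℝ) * r := by
      have : 0 < r := by linarith
      positivity
    have : (M : ℝ) * r * 4 ≤ M * r * (q : ℝ) ^ 2 := by
      have : (4 : ℝ) ≤ q ^ 2 := by linarith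
      gcongr
    have : 1 * r ≤ M * r := by
      have : 0 < r := by linarith
      gcongr
    linarith
  have bξ : ∀ j, |Y j - 3 * X j| ≤ 8 := by
    intro j
    refine (abs_sub _ _).trans ?_
    rw [abs_mul, abs_of_pos (by norm_num : (0:ℝ) < 3)]
    linarith [h.bX j, h.bY j]
  have bXX : ∀ j k, |X j - X k| ≤ 4 := by
    intro j k
    refine (abs_sub _ _).trans ?_
    linarith [h.bX j, h.bX k]
  have hx2 : ∀ (i : Fin M') (j : ι), |((i : ℕ) : ℝ) / M' + ρ * (Y j - 3 * X j)| ≤ 2 := by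
    intro i j
    refine (abs_add_le _ _).trans ?_
    have e1 : |((i : ℕ) : ℝ) / M'| ≤ 1 := by
      rw [abs_of_nonneg (by positivity), div_le_one M'0]
      exact_mod_cast i.isLt.le
    have e2 : |ρ * (Y j - 3 * X j)| ≤ ρ * 8 := by
      rw [abs_mul, abs_of_pos ρ0]
      have := bξ j
      gcongr
    linarith
  have hfar : ∀ (i i' : Fin M') (j j' : ι), i ≠ i' →
      100 * ρ ≤ |(((i : ℕ) : ℝ) / M' + ρ * (Y j - 3 * X j)) -
        (((i' : ℕ) : ℝ) / M' + ρ * (Y j' - 3 * X j'))| := by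
    intro i i' j j' hne
    have hne' : (i : ℕ) ≠ (i' : ℕ) := fun hh => hne (Fin.ext hh)
    have e1 := one_le_abs_cast_sub hne'
    have e2 : (((i : ℕ) : ℝ) / M' + ρ * (Y j - 3 * X j)) -
        (((i' : ℕ) : ℝ) / M' + ρ * (Y j' - 3 * X j')) =
        (((i : ℕ) : ℝ) - (i' : ℕ)) / M' - -(ρ * ((Y j - 3 * X j) - (Y j' - 3 * X j'))) := by
      ring
    rw [e2]
    have e3 := abs_sub_abs_le_abs_sub ((((i : ℕ) : ℝ) - (i' : ℕ)) / M')
      (-(ρ * ((Y j - 3 * X j) - (Y j' - 3 * X j'))))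
    refine le_trans ?_ e3
    rw [abs_neg, abs_div, abs_of_pos M'0, abs_mul, abs_of_pos ρ0]
    have e4 : |(Y j - 3 * X j) - (Y j' - 3 * X j')| ≤ 16 := by
      refine (abs_sub _ _).trans ?_
      linarith [bξ j, bξ j']
    have e5 : ρ * |(Y j - 3 * X j) - (Y j' - 3 * X j')| ≤ ρ * 16 := by gcongr
    have e6 : 1 / (M' : ℝ) ≤ |((i : ℕ) : ℝ) - (i' : ℕ)| / M' := by gcongr
    have e7 : 116 * ρ ≤ 1 / M' := by
      rw [le_div_iff₀ M'0]
      have : 0 < ρ * M' := by positivity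
      linarith
    linarith
  have two : ∀ (i i' : Fin M') (j k l : ι), j ≠ k → i ≠ i' → Dom (ρ * w / 10)
      (((i : ℕ) : ℝ) / M' + ρ * (Y j - 3 * X j))
      ((1 / 256) * (((i : ℕ) : ℝ) / M' + ρ * (Y j - 3 * X j)) ^ 2 + ρ * X j)
      (((i : ℕ) : ℝ) / M' + ρ * (Y k - 3 * X k))
      ((1 / 256) * (((i : ℕ) : ℝ) / M' + ρ * (Y k - 3 * X k)) ^ 2 + ρ * X k)
      (((i' : ℕ) : ℝ) / M' + ρ * (Y l - 3 * X l))
      ((1 / 256) * (((i' : ℕ) : ℝ) / M' + ρ * (Y l - 3 * X l)) ^ 2 + ρ * X l) := by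
    intro i i' j k l hjk hii
    exact two_core ρ0 hw (h.lip j k) (h.gap j k hjk) (bXX j k) (bXX j l) (hx2 i' l) (hx2 i k)
      (hfar i i' j l hii)
  have three : ∀ (i i' i'' : Fin M') (j k l : ι), i < i' → i' < i'' → Dom (ρ * w / 10)
      (((i : ℕ) : ℝ) / M' + ρ * (Y j - 3 * X j))
      ((1 / 256) * (((i : ℕ) : ℝ) / M' + ρ * (Y j - 3 * X j)) ^ 2 + ρ * X j)
      (((i' : ℕ) : ℝ) / M' + ρ * (Y k - 3 * X k))
      ((1 / 256) * (((i' : ℕ) : ℝ) / M' + ρ * (Y k - 3 * X k)) ^ 2 + ρ * X k)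
      (((i'' : ℕ) : ℝ) / M' + ρ * (Y l - 3 * X l))
      ((1 / 256) * (((i'' : ℕ) : ℝ) / M' + ρ * (Y l - 3 * X l)) ^ 2 + ρ * X l) := by
    intro i i' i'' j k l h12 h23
    exact three_core hM hq hqp hp hr hw hwr hM' hρ h12 h23 (bξ j) (bξ k) (bξ l)
      (h.hX j) (h.hX k) (h.hX l) (h.hlev j) (h.hlev k) (h.hlev l)
  refine ⟨fun a => a.1.isLt, ?_, fun a => hx2 a.1 a.2, ?_, ?_, ?_, ?_⟩
  · intro a
    have e : ((a.1 : ℕ) : ℝ) / M' + ρ * (Y a.2 - 3 * X a.2) - ((a.1 : ℕ) : ℝ) / M' =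
        ρ * (Y a.2 - 3 * X a.2) := by ring
    simp only [e]
    rw [abs_mul, abs_of_pos ρ0, mul_comm]
    have := bξ a.2
    gcongr
  · intro a
    have := hx2 a.1 a.2
    refine (abs_add_le _ _).trans ?_
    rw [abs_mul, abs_of_pos (by norm_num : (0:ℝ) < 1 / 256), abs_pow, abs_mul, abs_of_pos ρ0]
    have e1 : |((a.1 : ℕ) : ℝ) / M' + ρ * (Y a.2 - 3 * X a.2)| ^ 2 ≤ 2 ^ 2 := by gcongr
    have e2 : ρ * |X a.2| ≤ ρ * 2 := by
      have := h.bX a.2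
      gcongr
    linarith
  · rintro ⟨i, j⟩ ⟨i', j'⟩
    simp only
    set x1 := ((i : ℕ) : ℝ) / M' + ρ * (Y j - 3 * X j) with hx1
    set x2 := ((i' : ℕ) : ℝ) / M' + ρ * (Y j' - 3 * X j') with hx2'
    have e : (1 / 256) * x1 ^ 2 + ρ * X j - ((1 / 256) * x2 ^ 2 + ρ * X j') =
        (1 / 256) * ((x1 + x2) * (x1 - x2)) + ρ * (X j - X j') := by ring
    rw [e]
    refine (abs_add_le _ _).trans ?_
    rw [abs_mul, abs_of_pos (by norm_num : (0:ℝ) < 1 / 256), abs_mul, abs_mul, abs_of_pos ρ0]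
    have b1 : |x1 + x2| ≤ 4 := by
      refine (abs_add_le _ _).trans ?_
      linarith [hx2 i j, hx2 i' j']
    have b2 : |x1 + x2| * |x1 - x2| ≤ 4 * |x1 - x2| := by gcongr
    have b3 : ρ * |X j - X j'| ≤ |x1 - x2| := by
      by_cases hii : i = i'
      · subst hii
        have e1 : x1 - x2 = ρ * ((Y j - 3 * X j) - (Y j' - 3 * X j')) := by
          rw [hx1, hx2']; ring
        rw [e1, abs_mul, abs_of_pos ρ0]
        have := le_abs_xi (h.lip j j')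
        gcongr
      · have := hfar i i' j j' hii
        have h1 : ρ * |X j - X j'| ≤ ρ * 4 := by
          have := bXX j j'
          gcongr
        linarith
    linarith [abs_nonneg (x1 - x2)]
  · rintro ⟨i, j⟩ ⟨i', j'⟩ hne
    simp only
    by_cases hii : i = i'
    · subst hii
      have hjj : j ≠ j' := fun hh => hne (by rw [hh])
      have e1 : ((i : ℕ) : ℝ) / M' + ρ * (Y j - 3 * X j) -
          (((i : ℕ) : ℝ) / M' + ρ * (Y j' - 3 * X j')) =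
          ρ * ((Y j - 3 * X j) - (Y j' - 3 * X j')) := by
        ring
      rw [e1, abs_mul, abs_of_pos ρ0]
      have h1 := le_abs_xi (h.lip j j')
      have h2 := h.gap j j' hjj
      have h3 : ρ * w ≤ ρ * |(Y j - 3 * X j) - (Y j' - 3 * X j')| := by
        have := h2.trans h1
        gcongr
      have h4 : 0 < ρ * w := by positivity
      linarith
    · have := hfar i i' j j' hii
      have h1 : ρ * w ≤ ρ * 1 := by gcongr
      linarith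
  · rintro ⟨i1, j1⟩ ⟨i2, j2⟩ ⟨i3, j3⟩ n12 n13 n23
    simp only
    by_cases h12 : i1 = i2
    · subst h12
      have m12 : j1 ≠ j2 := fun hh => n12 (by rw [hh])
      by_cases h13 : i1 = i3
      · subst h13
        have m13 : j1 ≠ j3 := fun hh => n13 (by rw [hh])
        have m23 : j2 ≠ j3 := fun hh => n23 (by rw [hh])
        exact same_core ρ0 hρw (h.lip _ _) (h.lip _ _) (h.lip _ _) (bXX _ _) (bXX _ _)
          (h.tri _ _ _ m12 m13 m23)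
      · exact (two i1 i3 j1 j2 j3 m12 h13).2.1
    · by_cases h13 : i1 = i3
      · subst h13
        have m13 : j1 ≠ j3 := fun hh => n13 (by rw [hh])
        exact ((two i1 i2 j1 j3 j2 m13 h12).swap23).2.1
      · by_cases h23 : i2 = i3
        · subst h23
          have m23 : j2 ≠ j3 := fun hh => n23 (by rw [hh])
          exact ((two i2 i1 j2 j3 j1 m23 (Ne.symm h12)).swap23).swap12.2.1
        · rcases lt_or_gt_of_ne h12 with a12 | a12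
          · rcases lt_or_gt_of_ne h23 with a23 | a23
            · exact (three _ _ _ j1 j2 j3 a12 a23).2.1
            · rcases lt_or_gt_of_ne h13 with a13 | a13
              · exact ((three _ _ _ j1 j3 j2 a13 a23).swap23).2.1
              · exact ((three _ _ _ j3 j1 j2 a13 a12).swap12.swap23).2.1
          · rcases lt_or_gt_of_ne h23 with a23 | a23
            · rcases lt_or_gt_of_ne h13 with a13 | a13
              · exact ((three _ _ _ j2 j1 j3 a12 a13).swap12).2.1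
              · exact ((three _ _ _ j2 j3 j1 a23 a13).swap23.swap12).2.1
            · exact ((three _ _ _ j3 j2 j1 a23 a12).swap12.swap23.swap12).2.1

end Pool.Agent.EDW
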